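import Mathlib
import Pool.Agent.Lib.MP_89bcae_ag.Gph.Base

/-!
# Copies with couplings

`GoodW`: the operator of the families of `n` copies of an arrangement with different symbols `c a` of the
triples, the same symbols `β` of the pairs, and couplings `δ` of the parallel nodes has no eigenvector.
-/

open Polynomial

open scoped Classical

namespace Pool.Agent.Lib.MP_89bcae_ag

open Superelliptic

universe u

section

variable {ι : Type}

/-- The set of two elements (with the classical decidability of equality: no instance arguments). -/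
noncomputable def pr (i j : ι) : Finset ι := {i, j}

/-- The set of three elements. -/
noncomputable def tr (i j l : ι) : Finset ι := {i, j, l}

theorem mem_pr {i j x : ι} : x ∈ pr i j ↔ x = i ∨ x = j := by simp [pr]

theorem mem_tr {i j l x : ι} : x ∈ tr i j l ↔ x = i ∨ x = j ∨ x = l := by simp [tr]

/-- For every instance of `DecidableEq`. -/
theorem pr_eq [DecidableEq ι] (i j : ι) : pr i j = {i, j} := by
  ext x
  rw [mem_pr]
  simp

theorem tr_eq [DecidableEq ι] (i j l : ι) : tr i j l = {i, j, l} := by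
  ext x
  rw [mem_tr]
  simp

theorem pr_comm (i j : ι) : pr i j = pr j i := by
  ext x
  rw [mem_pr, mem_pr, or_comm]

theorem pr_eq_pr {i j i' j' : ι} :
    pr i j = pr i' j' ↔ (i = i' ∧ j = j') ∨ (i = j' ∧ j = i') := by
  constructor
  · intro h
    have h1 : i ∈ pr i' j' := h ▸ mem_pr.2 (Or.inl rfl)
    have h2 : j ∈ pr i' j' := h ▸ mem_pr.2 (Or.inr rfl)
    have h3 : i' ∈ pr i j := h ▸ mem_pr.2 (Or.inl rfl)
    have h4 : j' ∈ pr i j := h ▸ mem_pr.2 (Or.inr rfl)
    rw [mem_pr] at h1 h2 h3 h4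
    rcases h1 with h1 | h1 <;> rcases h2 with h2 | h2 <;> rcases h3 with h3 | h3 <;>
      rcases h4 with h4 | h4 <;> subst_vars <;> simp
  · rintro (⟨rfl, rfl⟩ | ⟨rfl, rfl⟩)
    · rfl
    · exact pr_comm _ _

theorem tr_comm (i j l : ι) : tr i j l = tr j i l := by
  ext x
  rw [mem_tr, mem_tr, or_left_comm]

theorem tr_right_comm (i j l : ι) : tr i j l = tr i l j := by
  ext x
  rw [mem_tr, mem_tr, or_comm (a := x = j)]

theorem card_pr {i j : ι} (h : i ≠ j) : (pr i j).card = 2 := Finset.card_pair h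

theorem card_tr {i j l : ι} (hij : i ≠ j) (hil : i ≠ l) (hjl : j ≠ l) : (tr i j l).card = 3 :=
  Finset.card_eq_three.2 ⟨i, j, l, hij, hil, hjl, rfl⟩

end

/-- The values of `ν` at the leading coefficients and at the differences of the nodes: copies with
couplings `δ`. -/
structure CopyW {A : Type*} [AddCommGroup A] {k F : Type u} [Field k] [Field F] [Algebra k F]
    {ι : Type} {n : ℕ} (ν : F → A) (α : ι → k[X]) (nd : ι → ι → Fin n → F) (β : Finset ι → A)
    (c : Fin n → Finset ι → A) (δ : Finset ι → Fin n → Fin n → A) : Prop where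
  lead : ∀ i j, i ≠ j → ν (algebraMap k F (α i - α j).leadingCoeff) = β (pr i j)
  par : ∀ i j, i ≠ j → ∀ a b, a ≠ b → ν (nd i j a - nd i j b) = δ (pr i j) a b
  adj : ∀ i j l, i ≠ j → j ≠ l → i ≠ l → ∀ a b, ν (nd i j a - nd i l b) =
    if a = b then c a (tr i j l) - β (pr i j) - β (pr i l) else 0

/-- The operator of the copies with couplings has no eigenvector modulo gradients. -/
def GoodW {ℓ : ℕ} {ι : Type} [Fintype ι] {n : ℕ} (w : ι → ZMod ℓ)
    (β : Finset ι → ZMod ℓ) (c : Fin n → Finset ι → ZMod ℓ)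
    (δ : Finset ι → Fin n → Fin n → ZMod ℓ) : Prop :=
  ∀ (x : Fin n → ι → ι → ZMod ℓ) (z : ZMod ℓ) (γ : ι → ZMod ℓ),
    (∀ a i j, i ≠ j → x a j i = -x a i j) →
    (∀ a i j, i ≠ j →
      (w i + w j) * (β (pr i j) * x a i j +
          ∑ b ∈ Finset.univ.filter (fun b => b ≠ a), δ (pr i j) a b * (x a i j - x b i j)) +
        ∑ l ∈ Finset.univ.filter (fun l => l ≠ i ∧ l ≠ j),
          w l * ((c a (tr i j l) - β (pr i j)) * x a i j -
            (c a (tr i j l) - β (pr i j) - β (pr i l)) * x a i l +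
            (c a (tr i j l) - β (pr i j) - β (pr j l)) * x a j l) = z * x a i j + (γ i - γ j)) →
    ∃ b : ι → ZMod ℓ, ∀ a i j, i ≠ j → x a i j = b i - b j

namespace Tri

variable {R : Type} [Field R]

/-- The sum of the coordinates. -/
def phi (X : Fin 3 → R) : R := X 0 + X 1 + X 2

/-- The operator of one triangle: the coordinates are those of the pairs `1 2`, `2 3`, `3 1`; `x`, `y` are
the symbols of the pairs `1 2`, `2 3` (that of `3 1` is zero), `c` that of the triangle. -/
def Tc (w₁ w₂ w₃ x y c : R) (X : Fin 3 → R) : Fin 3 → R :=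
  ![(w₁ + w₂) * x * X 0 + w₃ * (c - x) * phi X - w₃ * y * X 1,
    (w₂ + w₃) * y * X 1 + w₁ * (c - y) * phi X - w₁ * x * X 0,
    w₂ * c * phi X - w₂ * x * X 0 - w₂ * y * X 1]

/-- The polynomial of the operator on the gradients, at `z`. -/
def Lz (w₁ w₂ w₃ x y z : R) : R :=
  (z - (w₁ + w₂) * x) * (z - (w₂ + w₃) * y) - w₁ * w₃ * x * y

/-- The first coordinate vector. -/
def e0 : Fin 3 → R := ![1, 0, 0]

/-- The symmetric form. -/
def bf (w₁ w₂ w₃ : R) (X Y : Fin 3 → R) : R :=
  w₁ * w₂ * X 0 * Y 0 + w₂ * w₃ * X 1 * Y 1 + w₁ * w₃ * X 2 * Y 2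

/-- There are symbols `c a` and couplings `δ` of the first coordinates such that the operator of the copies
indexed by `κ` has no eigenvector. -/
def PW (κ : Type) [Fintype κ] (w₁ w₂ w₃ x y : R) : Prop :=
  ∃ (c : κ → R) (δ : κ → κ → R), (∀ a b, δ a b = δ b a) ∧ ∀ (X : κ → Fin 3 → R) (z : R),
    (∀ a, Tc w₁ w₂ w₃ x y (c a) (X a) + ((w₁ + w₂) * ∑ b, δ a b * (X a 0 - X b 0)) • e0 =
      z • X a) → ∀ a, X a = 0

end Tri

end Pool.Agent.Lib.MP_89bcae_ag
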