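import Mathlib
import Pool.Agent.Lib.MP_89bcae_ag.Gt.Defs

namespace Pool.Agent.Lib.MP_89bcae_ag.Tri

/-- **The pencil lemma.** Proof: call `y` bad at `z` if there is `x ≠ 0` with
`T x + (y * B x u) • u = z • x`. By `h1`, `B x u ≠ 0` for such `x`. (a) For each `z` at most one `y` is bad: for
`x, y` and `x', y'` with the same `z`, `B (T x) x' = z B x x' - y (B x u) (B u x')` and
`B x (T x') = z B x x' - y' (B x' u) (B x u)` are equal (`hT`), `B u x' = B x' u`, so `y = y'`. (b) For the
`z₀, x₀, τ` of `h2` no `y` is bad: `B (T x) x₀ = z₀ B x x₀ - y (B x u) (B u x₀) = z₀ B x x₀` and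
`B x (T x₀) = z₀ B x x₀ + τ B x u`, so `τ = 0` and `T x₀ = z₀ x₀`, contradiction to `h1`. (c) If all `y` were
bad, at `Z y`, then `Z` is injective by (a), so surjective (`Finite.injective_iff_surjective`), but `z₀` is
not in the image. -/
theorem pencil {ℓ : ℕ} [Fact ℓ.Prime] {V : Type} [AddCommGroup V] [Module (ZMod ℓ) V] (T : V → V)
    (B : LinearMap.BilinForm (ZMod ℓ) V) (hB : ∀ x y, B x y = B y x)
    (hT : ∀ x y, B (T x) y = B x (T y)) (u : V)
    (h1 : ∀ (x : V) (z : ZMod ℓ), T x = z • x → B x u = 0 → x = 0)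
    (h2 : ∃ (x : V) (z τ : ZMod ℓ), x ≠ 0 ∧ T x = z • x + τ • u ∧ B x u = 0) :
    ∃ y : ZMod ℓ, ∀ (x : V) (z : ZMod ℓ), T x + (y * B x u) • u = z • x → x = 0 := by
  by_contra hcon
  push Not at hcon
  choose X Z hXZ hX0 using hcon
  -- nonvanishing of the coupling coordinate
  have hne : ∀ y, B (X y) u ≠ 0 := by
    intro y hy
    apply hX0 y
    refine h1 (X y) (Z y) ?_ hy
    have h := hXZ y
    rw [hy, mul_zero, zero_smul, add_zero] at h
    exact h
  have hT' : ∀ y, T (X y) = Z y • X y - (y * B (X y) u) • u := by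
    intro y
    exact eq_sub_of_add_eq (hXZ y)
  -- (a) injectivity
  have hinj : Function.Injective Z := by
    intro y y' hyy
    have h := hT (X y) (X y')
    rw [hT' y, hT' y', ← hyy] at h
    simp only [map_sub, map_smul, LinearMap.sub_apply, LinearMap.smul_apply, smul_eq_mul] at h
    rw [hB u (X y')] at h
    have h3 : (y - y') * (B (X y) u * B (X y') u) = 0 := by linear_combination -h
    rcases mul_eq_zero.1 h3 with h4 | h4
    · exact sub_eq_zero.1 h4
    · rcases mul_eq_zero.1 h4 with h5 | h5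
      · exact absurd h5 (hne y)
      · exact absurd h5 (hne y')
  -- (b) the value of `h2` is not attained
  obtain ⟨x₀, z₀, τ, hx0, hTx, hBx⟩ := h2
  have hsurj : Function.Surjective Z := Finite.injective_iff_surjective.1 hinj
  obtain ⟨y, hy⟩ := hsurj z₀
  have h := hT (X y) x₀
  rw [hT' y, hTx, hy] at h
  simp only [map_sub, map_add, map_smul, LinearMap.sub_apply, LinearMap.smul_apply, smul_eq_mul] at h
  rw [hB u x₀, hBx] at h
  have h3 : τ * B (X y) u = 0 := by linear_combination -h
  rcases mul_eq_zero.1 h3 with h4 | h4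
  · apply hx0
    refine h1 x₀ z₀ ?_ hBx
    rw [hTx, h4, zero_smul, add_zero]
  · exact hne y h4

end Pool.Agent.Lib.MP_89bcae_ag.Tri
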