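import Mathlib
import Pool.Agent.Lib.MP_89bcae_ag.Gt.Defs

namespace Pool.Agent.Lib.MP_89bcae_ag.Tri

variable {R : Type} [Field R] {w₁ w₂ w₃ x y : R}

/-- The value at `phi`: `t = (w₁ + w₂ + w₃) c - w₃ x - w₁ y`. (`simp [phi, Tc]; ring`.) -/
theorem phi_Tc (c : R) (X : Fin 3 → R) : phi (Tc w₁ w₂ w₃ x y c X) =
    ((w₁ + w₂ + w₃) * c - w₃ * x - w₁ * y) * phi X := by
  simp only [phi, Tc, Matrix.cons_val_zero, Matrix.cons_val_one, Matrix.cons_val]
  ring

/-- Selfadjoint. -/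
theorem bf_Tc (c : R) (X Y : Fin 3 → R) :
    bf w₁ w₂ w₃ (Tc w₁ w₂ w₃ x y c X) Y = bf w₁ w₂ w₃ X (Tc w₁ w₂ w₃ x y c Y) := by
  simp only [phi, Tc, bf, Matrix.cons_val_zero, Matrix.cons_val_one, Matrix.cons_val]
  ring

/-- No eigenvector of sum zero. Proof: `phi X = 0`, so the first two coordinates give
`(z - (w₁ + w₂) x) X₀ + w₃ y X₁ = 0`, `(z - (w₂ + w₃) y) X₁ + w₁ x X₀ = 0`; the determinant is `Lz`, so
`Lz X₀ = 0`, `Lz X₁ = 0`, and `X₂ = - X₀ - X₁`. -/
theorem eq_zero_of_phi {c z : R} (hL : Lz w₁ w₂ w₃ x y z ≠ 0) {X : Fin 3 → R}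
    (h : Tc w₁ w₂ w₃ x y c X = z • X) (h0 : phi X = 0) : X = 0 := by
  have e1 := congrFun h 0
  have e2 := congrFun h 1
  simp only [Tc, h0, Pi.smul_apply, smul_eq_mul, Matrix.cons_val_zero, Matrix.cons_val_one,
    Matrix.cons_val] at e1 e2
  have h1 : Lz w₁ w₂ w₃ x y z * X 0 = 0 := by
    unfold Lz
    linear_combination (-(z - (w₂ + w₃) * y)) * e1 + (w₃ * y) * e2
  have h2 : Lz w₁ w₂ w₃ x y z * X 1 = 0 := by
    unfold Lz
    linear_combination (w₁ * x) * e1 - (z - (w₁ + w₂) * x) * e2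
  have h3 : X 0 = 0 := (mul_eq_zero.1 h1).resolve_left hL
  have h4 : X 1 = 0 := (mul_eq_zero.1 h2).resolve_left hL
  have h5 : X 2 = 0 := by
    unfold phi at h0
    linear_combination h0 - h3 - h4
  funext i
  fin_cases i
  · exact h3
  · exact h4
  · exact h5

/-- The eigenvectors. Proof: `τ = ![w₃, w₁, w₂]` satisfies `Tc τ = t τ` and `phi τ = W`. Let
`Tc X = z X`; by `phi_Tc`, `(z - t) phi X = 0`. If `phi X = 0` then `X = 0` by `eq_zero_of_phi`, fine. Otherwise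
`z = t` and `X - (phi X / W) τ` is an eigenvector of sum zero, so it is `0`. -/
theorem eigenvector {c z : R} (hW : w₁ + w₂ + w₃ ≠ 0) (hL : Lz w₁ w₂ w₃ x y z ≠ 0)
    {X : Fin 3 → R} (h : Tc w₁ w₂ w₃ x y c X = z • X) :
    X = 0 ∨ z = (w₁ + w₂ + w₃) * c - w₃ * x - w₁ * y ∧
      X = (phi X / (w₁ + w₂ + w₃)) • ![w₃, w₁, w₂] := by
  by_cases h0 : phi X = 0
  · exact Or.inl (eq_zero_of_phi hL h h0)
  right
  have hz : z = (w₁ + w₂ + w₃) * c - w₃ * x - w₁ * y := by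
    have e := phi_Tc (w₁ := w₁) (w₂ := w₂) (w₃ := w₃) (x := x) (y := y) c X
    rw [h] at e
    have e' : phi (z • X) = z * phi X := by
      simp only [phi, Pi.smul_apply, smul_eq_mul]
      ring
    rw [e'] at e
    exact mul_right_cancel₀ h0 e
  refine ⟨hz, ?_⟩
  have hY : X - (phi X / (w₁ + w₂ + w₃)) • ![w₃, w₁, w₂] = 0 := by
    refine eq_zero_of_phi (c := c) hL ?_ ?_
    · have e1 := congrFun h 0
      have e2 := congrFun h 1
      have e3 := congrFun h 2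
      set f := phi X / (w₁ + w₂ + w₃) with hf
      have hfX : phi X = f * (w₁ + w₂ + w₃) := by
        rw [hf]
        field_simp
      have hP : phi (X - f • ![w₃, w₁, w₂]) = 0 := by
        have : phi (X - f • ![w₃, w₁, w₂]) = phi X - f * (w₁ + w₂ + w₃) := by
          simp only [phi, Pi.sub_apply, Pi.smul_apply, smul_eq_mul, Matrix.cons_val_zero,
            Matrix.cons_val_one, Matrix.cons_val]
          ring
        rw [this, hfX]
        ring
      simp only [Tc, hfX, Pi.smul_apply, smul_eq_mul, Matrix.cons_val_zero, Matrix.cons_val_one,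
        Matrix.cons_val] at e1 e2 e3
      funext i
      fin_cases i
      · simp only [Tc, hP, Pi.sub_apply, Pi.smul_apply, smul_eq_mul, Matrix.cons_val_zero,
          Matrix.cons_val_one, Matrix.cons_val, Fin.zero_eta]
        rw [hz] at e1 ⊢
        linear_combination e1
      · simp only [Tc, hP, Pi.sub_apply, Pi.smul_apply, smul_eq_mul, Matrix.cons_val_zero,
          Matrix.cons_val_one, Matrix.cons_val, Fin.mk_one]
        rw [hz] at e2 ⊢
        linear_combination e2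
      · simp only [Tc, hP, Pi.sub_apply, Pi.smul_apply, smul_eq_mul, Matrix.cons_val_zero,
          Matrix.cons_val_one, Matrix.cons_val, Fin.reduceFinMk]
        rw [hz] at e3 ⊢
        linear_combination e3
    · simp only [phi, Pi.sub_apply, Pi.smul_apply, smul_eq_mul, Matrix.cons_val_zero,
        Matrix.cons_val_one, Matrix.cons_val]
      field_simp
      ring
  exact sub_eq_zero.1 hY

/-- The solution of `(z₀ - T) X = s e0` for the `z₀` where the resolvent has a simple form. With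
`z₀ = (w₂ + w₃) y - w₁ w₃ y / (w₁ + w₂)` and `t = W c - w₃ x - w₁ y ≠ z₀` there is `X` with
`Tc X + s e0 = z₀ X` and `X₀ = (w₃ / W) s / (z₀ - t)`. Proof: `phi X = f := s / (z₀ - t)`, `X₀ = (w₃ / W) f`,
`X₁ = (w₁ (c - y) f - w₁ x X₀) / (z₀ - (w₂ + w₃) y)` (the denominator is `- w₁ w₃ y / (w₁ + w₂) ≠ 0`),
`X₂ = f - X₀ - X₁`; the second equation is the definition of `X₁`, the third follows from the other two and
`phi_Tc`; the first one: multiply by `z₀ - (w₂ + w₃) y`; `field_simp; ring` with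
`c = (t + w₃ x + w₁ y) / W` (checked by computer). -/
theorem exists_resolvent {c s z₀ t : R} (h1 : w₁ ≠ 0) (h3 : w₃ ≠ 0) (h12 : w₁ + w₂ ≠ 0)
    (hW : w₁ + w₂ + w₃ ≠ 0) (hy : y ≠ 0)
    (hz : z₀ = (w₂ + w₃) * y - w₁ * w₃ * y / (w₁ + w₂))
    (ht : t = (w₁ + w₂ + w₃) * c - w₃ * x - w₁ * y) (htz : z₀ ≠ t) :
    ∃ X : Fin 3 → R, Tc w₁ w₂ w₃ x y c X + s • e0 = z₀ • X ∧
      X 0 = w₃ / (w₁ + w₂ + w₃) * s / (z₀ - t) := by
  have hz' : (w₁ + w₂) * z₀ = w₂ * (w₁ + w₂ + w₃) * y := by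
    rw [hz]
    field_simp
    ring
  obtain ⟨f, hf⟩ : ∃ f, (z₀ - t) * f = s :=
    ⟨s / (z₀ - t), mul_div_cancel₀ _ (sub_ne_zero.2 htz)⟩
  obtain ⟨A, hA⟩ : ∃ A, (w₁ + w₂ + w₃) * A = w₃ * f :=
    ⟨w₃ * f / (w₁ + w₂ + w₃), mul_div_cancel₀ _ hW⟩
  obtain ⟨B, hB⟩ : ∃ B, w₃ * y * B = -((w₁ + w₂) * ((c - y) * f - x * A)) :=
    ⟨-((w₁ + w₂) * ((c - y) * f - x * A)) / (w₃ * y), mul_div_cancel₀ _ (mul_ne_zero h3 hy)⟩
  have e1 : (w₁ + w₂) * x * A + w₃ * (c - x) * f - w₃ * y * B + s = z₀ * A := by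
    apply mul_left_cancel₀ hW
    subst ht
    linear_combination (-(w₁ + w₂ + w₃)) * hB - (w₁ + w₂ + w₃) * hf - z₀ * hA + f * hz'
  have e2 : (w₂ + w₃) * y * B + w₁ * (c - y) * f - w₁ * x * A = z₀ * B := by
    apply mul_left_cancel₀ h12
    linear_combination w₁ * hB - B * hz'
  have e3 : w₂ * c * f - w₂ * x * A - w₂ * y * B = z₀ * (f - A - B) := by
    subst ht
    linear_combination -hf - e1 - e2
  have hphi : phi ![A, B, f - A - B] = f := by
    simp [phi]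
  refine ⟨![A, B, f - A - B], ?_, ?_⟩
  · ext i
    fin_cases i
    · simpa [Tc, hphi, e0] using e1
    · simpa [Tc, hphi, e0] using e2
    · simpa [Tc, hphi, e0] using e3
  · have hne : z₀ - t ≠ 0 := sub_ne_zero.2 htz
    have : f = s / (z₀ - t) := by
      rw [← hf, mul_div_cancel_left₀ _ hne]
    have h2 : A = w₃ * f / (w₁ + w₂ + w₃) := by
      rw [← hA, mul_div_cancel_left₀ _ hW]
    show A = _
    rw [h2, this]
    ring

end Pool.Agent.Lib.MP_89bcae_ag.Tri
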