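import Mathlib
import Pool.Agent.Lib.MP_89bcae_ag.Gt.Defs

namespace Pool.Agent.Lib.MP_89bcae_ag.Tri

/-- A form `m ^ 2 + D y ^ 2` with `D ≠ 0` has a nonsquare value. -/
theorem exists_nonsq_h72 {ℓ : ℕ} [Fact ℓ.Prime] (hℓ2 : ℓ ≠ 2) {D : ZMod ℓ} (hD : D ≠ 0) :
    ∃ m y : ZMod ℓ, ∀ s : ZMod ℓ, s ^ 2 ≠ m ^ 2 + D * y ^ 2 := by
  by_cases hs : IsSquare D
  · obtain ⟨d, hd⟩ := hs
    have hd0 : d ≠ 0 := by
      intro h
      apply hD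
      rw [hd, h, mul_zero]
    have hchar : ringChar (ZMod ℓ) ≠ 2 := by
      rw [ZMod.ringChar_zmod_n]
      exact hℓ2
    obtain ⟨r, hr⟩ := FiniteField.exists_nonsquare (F := ZMod ℓ) hchar
    obtain ⟨a, b, hab⟩ := ZMod.sq_add_sq ℓ r
    refine ⟨a, b / d, fun s hs => hr ⟨s, ?_⟩⟩
    have h1 : D * (b / d) ^ 2 = b ^ 2 := by
      rw [hd]
      field_simp
    rw [h1, hab] at hs
    rw [← hs, sq]
  · refine ⟨0, 1, fun s h => hs ⟨s, ?_⟩⟩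
    have h1 : (0 : ZMod ℓ) ^ 2 + D * 1 ^ 2 = D := by ring
    rw [h1] at h
    rw [← h, sq]

/-- Symbols of the pairs without eigenvectors on the gradients. Proof: with `A = w₁ + w₂`, `C = w₂ + w₃`,
`W = w₁ + w₂ + w₃`, `A C - w₁ w₃ = w₂ W`, `Lz = z ^ 2 - (A x + C y) z + w₂ W x y`. The discriminant is
`(A x + C y) ^ 2 - 4 w₂ W x y = m ^ 2 + D y ^ 2` where `m = A x + (C - 2 w₂ W / A) y` and
`D = 4 w₁ w₂ w₃ W / A ^ 2 ≠ 0`. There are `m, y` with `m ^ 2 + D y ^ 2` not a square: let `r` be a nonsquare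
(`FiniteField.exists_nonsquare`); if `D` is not a square take `m = 0`, `y = 1`; if `D = d ^ 2`,
`ZMod.sq_add_sq` gives `a ^ 2 + b ^ 2 = r`, take `m = a`, `y = b / d`. Then `x = (m - (C - 2 w₂ W / A) y) / A`.
A root `z` of `Lz` would give `(2 z - (A x + C y)) ^ 2 =` the discriminant. (`x ≠ 0` and `y ≠ 0` follow:
otherwise `Lz` has a root.) -/
theorem exists_xy {ℓ : ℕ} [Fact ℓ.Prime] (hℓ2 : ℓ ≠ 2) {w₁ w₂ w₃ : ZMod ℓ} (h1 : w₁ ≠ 0)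
    (h2 : w₂ ≠ 0) (h3 : w₃ ≠ 0) (h12 : w₁ + w₂ ≠ 0) (hW : w₁ + w₂ + w₃ ≠ 0) :
    ∃ x y : ZMod ℓ, x ≠ 0 ∧ y ≠ 0 ∧ ∀ z, Lz w₁ w₂ w₃ x y z ≠ 0 := by
  have h2' : (2 : ZMod ℓ) ≠ 0 := by
    intro h
    have h3 : ((2 : ℕ) : ZMod ℓ) = 0 := by exact_mod_cast h
    rw [ZMod.natCast_eq_zero_iff] at h3
    exact hℓ2 ((Nat.prime_dvd_prime_iff_eq Fact.out Nat.prime_two).1 h3)
  obtain ⟨A, hA⟩ : ∃ A, A = w₁ + w₂ := ⟨_, rfl⟩
  have hA0 : A ≠ 0 := by rw [hA]; exact h12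
  have hD : (4 * w₁ * w₂ * w₃ * (w₁ + w₂ + w₃) / A ^ 2 : ZMod ℓ) ≠ 0 := by
    apply div_ne_zero _ (pow_ne_zero _ hA0)
    have h4 : (4 : ZMod ℓ) ≠ 0 := by
      have : (4 : ZMod ℓ) = 2 * 2 := by norm_num
      rw [this]
      exact mul_ne_zero h2' h2'
    exact mul_ne_zero (mul_ne_zero (mul_ne_zero (mul_ne_zero h4 h1) h2) h3) hW
  obtain ⟨m, y, hmy⟩ := exists_nonsq_h72 hℓ2 hD
  obtain ⟨x, hx⟩ : ∃ x, x = (m - ((w₂ + w₃) - 2 * w₂ * (w₁ + w₂ + w₃) / A) * y) / A := ⟨_, rfl⟩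
  have hm : m = A * x + ((w₂ + w₃) - 2 * w₂ * (w₁ + w₂ + w₃) / A) * y := by
    rw [hx]
    field_simp
    ring
  have key : ∀ z, Lz w₁ w₂ w₃ x y z ≠ 0 := by
    intro z hz
    apply hmy (2 * z - (A * x + (w₂ + w₃) * y))
    have hz' : (z - A * x) * (z - (w₂ + w₃) * y) - w₁ * w₃ * x * y = 0 := by
      rw [hA]
      exact hz
    have e1 : (2 * z - (A * x + (w₂ + w₃) * y)) ^ 2 =
        (A * x - (w₂ + w₃) * y) ^ 2 + 4 * (w₁ * w₃ * x * y) := by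
      linear_combination 4 * hz'
    have e2 : m ^ 2 + (4 * w₁ * w₂ * w₃ * (w₁ + w₂ + w₃) / A ^ 2) * y ^ 2 =
        (A * x - (w₂ + w₃) * y) ^ 2 + 4 * (w₁ * w₃ * x * y) := by
      rw [hm]
      have hw1 : w₁ = A - w₂ := by rw [hA]; ring
      rw [hw1]
      field_simp
      ring
    rw [e1, e2]
  refine ⟨x, y, ?_, ?_, key⟩
  · intro h
    apply key 0
    rw [h]
    simp [Lz]
  · intro h
    apply key 0
    rw [h]
    simp [Lz]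

end Pool.Agent.Lib.MP_89bcae_ag.Tri
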