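import Mathlib
import Pool.Agent.Lib.MP_89bcae_ag.Gt.P01
import Pool.Agent.Lib.MP_89bcae_ag.Gt.P02

namespace Pool.Agent.Lib.MP_89bcae_ag.Tri

variable {ℓ : ℕ} [Fact ℓ.Prime] {w₁ w₂ w₃ x y : ZMod ℓ}

/-- The sum of the two forms. -/
private noncomputable def B2_h13 (w₁ w₂ w₃ : ZMod ℓ) :
    LinearMap.BilinForm (ZMod ℓ) ((Fin 3 → ZMod ℓ) × (Fin 3 → ZMod ℓ)) :=
  LinearMap.mk₂ (ZMod ℓ) (fun P Q => bf w₁ w₂ w₃ P.1 Q.1 + bf w₁ w₂ w₃ P.2 Q.2)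
    (by intro a b c; simp only [bf, Prod.fst_add, Prod.snd_add, Pi.add_apply]; ring)
    (by intro a b c; simp only [bf, Prod.smul_fst, Prod.smul_snd, Pi.smul_apply, smul_eq_mul]; ring)
    (by intro a b c; simp only [bf, Prod.fst_add, Prod.snd_add, Pi.add_apply]; ring)
    (by intro a b c; simp only [bf, Prod.smul_fst, Prod.smul_snd, Pi.smul_apply, smul_eq_mul]; ring)

private theorem B2_apply_h13 (w₁ w₂ w₃ : ZMod ℓ) (P Q : (Fin 3 → ZMod ℓ) × (Fin 3 → ZMod ℓ)) :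
    B2_h13 w₁ w₂ w₃ P Q = bf w₁ w₂ w₃ P.1 Q.1 + bf w₁ w₂ w₃ P.2 Q.2 := rfl

private theorem bf_symm_h13 (w₁ w₂ w₃ : ZMod ℓ) (X Y : Fin 3 → ZMod ℓ) :
    bf w₁ w₂ w₃ X Y = bf w₁ w₂ w₃ Y X := by
  unfold bf
  ring

private theorem e0_zero_h13 : (e0 : Fin 3 → ZMod ℓ) 0 = 1 := rfl
private theorem e0_one_h13 : (e0 : Fin 3 → ZMod ℓ) 1 = 0 := rfl
private theorem e0_two_h13 : (e0 : Fin 3 → ZMod ℓ) 2 = 0 := rfl

private theorem B2_u_h13 (w₁ w₂ w₃ : ZMod ℓ) (P : (Fin 3 → ZMod ℓ) × (Fin 3 → ZMod ℓ)) :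
    B2_h13 w₁ w₂ w₃ P (e0, -e0) = w₁ * w₂ * (P.1 0 - P.2 0) := by
  rw [B2_apply_h13]
  simp only [bf, Pi.neg_apply, e0_zero_h13, e0_one_h13, e0_two_h13]
  ring

/-- **Two copies.** `c₁`, `c₂` are such that `t₁ = z₀ - 1`, `t₂ = z₀ + 1`. Proof: `pencil` for
`V = (Fin 3 → ZMod ℓ) × (Fin 3 → ZMod ℓ)`, `T (X, Y) = (Tc c₁ X, Tc c₂ Y)`, `B` the sum of the two forms `bf`,
`u = (e0, - e0)`; `B (X, Y) u = w₁ w₂ (X₀ - Y₀)`; take `D = w₁ w₂ y'` for the `y'` of `pencil`. `h1`: if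
`T (X, Y) = z (X, Y)` then by `eigenvector` `X = 0` or `z = t₁`, `X = m τ`, and `Y = 0` or `z = t₂`, `Y = m' τ`;
`t₁ ≠ t₂` (`2 ≠ 0`), so one of them is `0`, and `X₀ = Y₀` gives `m w₃ = 0` (or `m' w₃ = 0`), so both are `0`.
`h2`: `exists_resolvent` for `c₁`, `s = 1` gives `X` with `X₀ = (w₃ / W) / (z₀ - t₁) = w₃ / W`, and for `c₂`,
`s = -1` it gives `Y` with `Y₀ = - (w₃ / W) / (z₀ - t₂) = w₃ / W`; so `T (X, Y) = z₀ (X, Y) - u` and
`B (X, Y) u = 0`; `(X, Y) ≠ 0` since `X₀ ≠ 0`. -/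
theorem exists_two (hℓ2 : ℓ ≠ 2) (h1 : w₁ ≠ 0) (h2 : w₂ ≠ 0) (h3 : w₃ ≠ 0) (h12 : w₁ + w₂ ≠ 0)
    (hW : w₁ + w₂ + w₃ ≠ 0) (hy : y ≠ 0) (hL : ∀ z, Lz w₁ w₂ w₃ x y z ≠ 0) {z₀ c₁ c₂ : ZMod ℓ}
    (hz : z₀ = (w₂ + w₃) * y - w₁ * w₃ * y / (w₁ + w₂))
    (ht₁ : (w₁ + w₂ + w₃) * c₁ - w₃ * x - w₁ * y = z₀ - 1)
    (ht₂ : (w₁ + w₂ + w₃) * c₂ - w₃ * x - w₁ * y = z₀ + 1) :
    ∃ D : ZMod ℓ, ∀ (X Y : Fin 3 → ZMod ℓ) (z : ZMod ℓ),
      Tc w₁ w₂ w₃ x y c₁ X + (D * (X 0 - Y 0)) • e0 = z • X →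
      Tc w₁ w₂ w₃ x y c₂ Y + (D * (Y 0 - X 0)) • e0 = z • Y → X = 0 ∧ Y = 0 := by
  have h20 : (2 : ZMod ℓ) ≠ 0 := by
    intro h
    have h' : ((2 : ℕ) : ZMod ℓ) = 0 := by exact_mod_cast h
    rw [ZMod.natCast_eq_zero_iff] at h'
    exact hℓ2 ((Nat.prime_dvd_prime_iff_eq (Fact.out : ℓ.Prime) Nat.prime_two).1 h')
  have hw12 : w₁ * w₂ ≠ 0 := mul_ne_zero h1 h2
  have htau : ∀ (m : ZMod ℓ) (Z : Fin 3 → ZMod ℓ), Z = m • ![w₃, w₁, w₂] → Z 0 = 0 → Z = 0 := by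
    intro m Z hZ h0
    rw [hZ] at h0
    simp only [Pi.smul_apply, Matrix.cons_val_zero, smul_eq_mul] at h0
    have hm : m = 0 := (mul_eq_zero.1 h0).resolve_right h3
    rw [hZ, hm, zero_smul]
  obtain ⟨y', hy'⟩ := pencil
    (fun P : (Fin 3 → ZMod ℓ) × (Fin 3 → ZMod ℓ) => (Tc w₁ w₂ w₃ x y c₁ P.1, Tc w₁ w₂ w₃ x y c₂ P.2))
    (B2_h13 w₁ w₂ w₃) (by
      intro P Q
      rw [B2_apply_h13, B2_apply_h13, bf_symm_h13 _ _ _ P.1, bf_symm_h13 _ _ _ P.2]) (by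
      intro P Q
      rw [B2_apply_h13, B2_apply_h13]
      simp only
      rw [bf_Tc, bf_Tc]) (e0, -e0) (by
      intro P z hT hB
      rw [B2_u_h13] at hB
      have h0 : P.1 0 = P.2 0 := sub_eq_zero.1 ((mul_eq_zero.1 hB).resolve_left hw12)
      have e1 : Tc w₁ w₂ w₃ x y c₁ P.1 = z • P.1 := congrArg Prod.fst hT
      have e2 : Tc w₁ w₂ w₃ x y c₂ P.2 = z • P.2 := congrArg Prod.snd hT
      rcases eigenvector hW (hL z) e1 with a1 | ⟨a1, a1'⟩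
      · rcases eigenvector hW (hL z) e2 with a2 | ⟨a2, a2'⟩
        · exact Prod.ext a1 a2
        · refine Prod.ext a1 (htau _ _ a2' ?_)
          rw [← h0, a1]
          rfl
      · rcases eigenvector hW (hL z) e2 with a2 | ⟨a2, a2'⟩
        · refine Prod.ext (htau _ _ a1' ?_) a2
          rw [h0, a2]
          rfl
        · exfalso
          apply h20
          rw [ht₁] at a1
          rw [ht₂] at a2
          linear_combination a1 - a2) (by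
      obtain ⟨X, hX, hX0⟩ := exists_resolvent (x := x) (c := c₁) (s := 1) (t := z₀ - 1) h1 h3 h12 hW hy hz ht₁.symm
        (by intro h; exact one_ne_zero (α := ZMod ℓ) (by linear_combination h))
      obtain ⟨Y, hY, hY0⟩ := exists_resolvent (x := x) (c := c₂) (s := -1) (t := z₀ + 1) h1 h3 h12 hW hy hz ht₂.symm
        (by intro h; exact one_ne_zero (α := ZMod ℓ) (by linear_combination -h))
      have e1 : X 0 = w₃ / (w₁ + w₂ + w₃) := by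
        rw [hX0, sub_sub_cancel, div_one, mul_one]
      have e2 : Y 0 = w₃ / (w₁ + w₂ + w₃) := by
        rw [hY0, sub_add_cancel_left, mul_neg, mul_one, neg_div_neg_eq, div_one]
      refine ⟨(X, Y), z₀, -1, ?_, ?_, ?_⟩
      · intro h
        have h' : X = 0 := congrArg Prod.fst h
        rw [h'] at e1
        exact div_ne_zero h3 hW e1.symm
      · refine Prod.ext ?_ ?_
        · simp only [Prod.fst_add, Prod.smul_fst]
          rw [← hX]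
          module
        · simp only [Prod.snd_add, Prod.smul_snd]
          rw [← hY]
          module
      · rw [B2_u_h13]
        simp only
        rw [e1, e2, sub_self, mul_zero])
  refine ⟨w₁ * w₂ * y', fun X Y z hX hY => ?_⟩
  have key := hy' (X, Y) z (by
    refine Prod.ext ?_ ?_
    · simp only [Prod.fst_add, Prod.smul_fst]
      rw [← hX, B2_u_h13]
      simp only
      module
    · simp only [Prod.snd_add, Prod.smul_snd]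
      rw [← hY, B2_u_h13]
      simp only
      module)
  exact ⟨congrArg Prod.fst key, congrArg Prod.snd key⟩

end Pool.Agent.Lib.MP_89bcae_ag.Tri
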