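import Mathlib
import Pool.Agent.Lib.MP_89bcae_ag.Gt.P04

namespace Pool.Agent.Lib.MP_89bcae_ag.Tri

variable {ℓ : ℕ} [Fact ℓ.Prime] {w₁ w₂ w₃ x y : ZMod ℓ}

/-- auxiliary: the sum of the three forms. -/
noncomputable def B3_h4 (w₁ w₂ w₃ : ZMod ℓ) : LinearMap.BilinForm (ZMod ℓ)
    ((Fin 3 → ZMod ℓ) × (Fin 3 → ZMod ℓ) × (Fin 3 → ZMod ℓ)) :=
  LinearMap.mk₂ (ZMod ℓ)
    (fun P Q => bf w₁ w₂ w₃ P.1 Q.1 + bf w₁ w₂ w₃ P.2.1 Q.2.1 + bf w₁ w₂ w₃ P.2.2 Q.2.2)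
    (by intro P P' Q; simp only [bf, Prod.fst_add, Prod.snd_add, Pi.add_apply]; ring)
    (by intro a P Q; simp only [bf, Prod.smul_fst, Prod.smul_snd, Pi.smul_apply, smul_eq_mul]; ring)
    (by intro P Q Q'; simp only [bf, Prod.fst_add, Prod.snd_add, Pi.add_apply]; ring)
    (by intro a P Q; simp only [bf, Prod.smul_fst, Prod.smul_snd, Pi.smul_apply, smul_eq_mul]; ring)

/-- auxiliary: both cases at once (`(α, β) = (1, 0)` or `(0, 1)`), by `pencil`. -/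
theorem three_aux_h4 (h1 : w₁ ≠ 0) (h2 : w₂ ≠ 0) (h3 : w₃ ≠ 0)
    (hW : w₁ + w₂ + w₃ ≠ 0) (hL : ∀ z, Lz w₁ w₂ w₃ x y z ≠ 0) {c₁ c₂ c₃ D α β : ZMod ℓ}
    (hD : ∀ (X Y : Fin 3 → ZMod ℓ) (z : ZMod ℓ),
      Tc w₁ w₂ w₃ x y c₁ X + (D * (X 0 - Y 0)) • e0 = z • X →
      Tc w₁ w₂ w₃ x y c₂ Y + (D * (Y 0 - X 0)) • e0 = z • Y → X = 0 ∧ Y = 0)
    (hex : ∃ (X Y Z : Fin 3 → ZMod ℓ) (z τ : ZMod ℓ), (X ≠ 0 ∨ Y ≠ 0) ∧
      Tc w₁ w₂ w₃ x y c₁ X + (D * (X 0 - Y 0)) • e0 = z • X + (τ * α) • e0 ∧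
      Tc w₁ w₂ w₃ x y c₂ Y + (D * (Y 0 - X 0)) • e0 = z • Y + (τ * β) • e0 ∧
      Tc w₁ w₂ w₃ x y c₃ Z = z • Z - τ • e0 ∧ α * X 0 + β * Y 0 - Z 0 = 0) :
    ∃ D' : ZMod ℓ, ∀ (X Y Z : Fin 3 → ZMod ℓ) (z : ZMod ℓ),
      Tc w₁ w₂ w₃ x y c₁ X + (D * (X 0 - Y 0)) • e0 +
        (D' * (α * X 0 + β * Y 0 - Z 0) * α) • e0 = z • X →
      Tc w₁ w₂ w₃ x y c₂ Y + (D * (Y 0 - X 0)) • e0 +
        (D' * (α * X 0 + β * Y 0 - Z 0) * β) • e0 = z • Y →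
      Tc w₁ w₂ w₃ x y c₃ Z - (D' * (α * X 0 + β * Y 0 - Z 0)) • e0 = z • Z →
        X = 0 ∧ Y = 0 ∧ Z = 0 := by
  let V := (Fin 3 → ZMod ℓ) × (Fin 3 → ZMod ℓ) × (Fin 3 → ZMod ℓ)
  let B : LinearMap.BilinForm (ZMod ℓ) V := B3_h4 w₁ w₂ w₃
  have hBa : ∀ P Q : V, B P Q = bf w₁ w₂ w₃ P.1 Q.1 + bf w₁ w₂ w₃ P.2.1 Q.2.1 +
      bf w₁ w₂ w₃ P.2.2 Q.2.2 := fun _ _ => rfl
  let T : V → V := fun P => (Tc w₁ w₂ w₃ x y c₁ P.1 + (D * (P.1 0 - P.2.1 0)) • e0,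
    Tc w₁ w₂ w₃ x y c₂ P.2.1 + (D * (P.2.1 0 - P.1 0)) • e0, Tc w₁ w₂ w₃ x y c₃ P.2.2)
  let u : V := (α • e0, β • e0, - e0)
  have hbe : ∀ (X : Fin 3 → ZMod ℓ) (a : ZMod ℓ), bf w₁ w₂ w₃ X (a • e0) = w₁ * w₂ * a * X 0 := by
    intro X a
    simp [bf, e0]
    ring
  have hbe' : ∀ (X : Fin 3 → ZMod ℓ), bf w₁ w₂ w₃ X (- e0) = - (w₁ * w₂ * X 0) := by
    intro X
    simp [bf, e0]
  have hbl : ∀ (X Y : Fin 3 → ZMod ℓ) (a : ZMod ℓ), bf w₁ w₂ w₃ (X + a • e0) Y =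
      bf w₁ w₂ w₃ X Y + w₁ * w₂ * a * Y 0 := by
    intro X Y a
    simp [bf, e0]
    ring
  have hbr : ∀ (X Y : Fin 3 → ZMod ℓ) (a : ZMod ℓ), bf w₁ w₂ w₃ X (Y + a • e0) =
      bf w₁ w₂ w₃ X Y + w₁ * w₂ * a * X 0 := by
    intro X Y a
    simp [bf, e0]
    ring
  have hBu : ∀ P : V, B P u = w₁ * w₂ * (α * P.1 0 + β * P.2.1 0 - P.2.2 0) := by
    intro P
    rw [hBa]
    show bf w₁ w₂ w₃ P.1 (α • e0) + bf w₁ w₂ w₃ P.2.1 (β • e0) + bf w₁ w₂ w₃ P.2.2 (- e0) = _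
    rw [hbe, hbe, hbe']
    ring
  have hBs : ∀ P Q : V, B P Q = B Q P := by
    intro P Q
    rw [hBa, hBa]
    simp only [bf]
    ring
  have hTs : ∀ P Q : V, B (T P) Q = B P (T Q) := by
    intro P Q
    rw [hBa, hBa]
    show bf w₁ w₂ w₃ (Tc w₁ w₂ w₃ x y c₁ P.1 + (D * (P.1 0 - P.2.1 0)) • e0) Q.1 +
      bf w₁ w₂ w₃ (Tc w₁ w₂ w₃ x y c₂ P.2.1 + (D * (P.2.1 0 - P.1 0)) • e0) Q.2.1 +
      bf w₁ w₂ w₃ (Tc w₁ w₂ w₃ x y c₃ P.2.2) Q.2.2 =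
      bf w₁ w₂ w₃ P.1 (Tc w₁ w₂ w₃ x y c₁ Q.1 + (D * (Q.1 0 - Q.2.1 0)) • e0) +
      bf w₁ w₂ w₃ P.2.1 (Tc w₁ w₂ w₃ x y c₂ Q.2.1 + (D * (Q.2.1 0 - Q.1 0)) • e0) +
      bf w₁ w₂ w₃ P.2.2 (Tc w₁ w₂ w₃ x y c₃ Q.2.2)
    rw [hbl, hbl, hbr, hbr, bf_Tc, bf_Tc, bf_Tc]
    ring
  have hw : w₁ * w₂ ≠ 0 := mul_ne_zero h1 h2
  obtain ⟨y', hy'⟩ := pencil T B hBs hTs u (by
      rintro ⟨X, Y, Z⟩ z hT hu
      rw [hBu] at hu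
      have hu' : α * X 0 + β * Y 0 - Z 0 = 0 := (mul_eq_zero.1 hu).resolve_left hw
      have e1 : Tc w₁ w₂ w₃ x y c₁ X + (D * (X 0 - Y 0)) • e0 = z • X := congrArg Prod.fst hT
      have e2 : Tc w₁ w₂ w₃ x y c₂ Y + (D * (Y 0 - X 0)) • e0 = z • Y :=
        congrArg (fun P : V => P.2.1) hT
      have e3 : Tc w₁ w₂ w₃ x y c₃ Z = z • Z := congrArg (fun P : V => P.2.2) hT
      obtain ⟨rfl, rfl⟩ := hD X Y z e1 e2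
      have hZ0 : Z 0 = 0 := by
        have : α * (0 : ZMod ℓ) + β * 0 - Z 0 = 0 := hu'
        linear_combination -this
      have hZ : Z = 0 := by
        rcases eigenvector hW (hL z) e3 with hZ | ⟨-, hZ⟩
        · exact hZ
        · have h5 : phi Z / (w₁ + w₂ + w₃) * w₃ = 0 := by
            have := congrFun hZ 0
            rw [hZ0] at this
            simpa using this.symm
          have h6 := (mul_eq_zero.1 h5).resolve_right h3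
          rw [hZ, h6, zero_smul]
      rw [hZ]
      rfl) (by
      obtain ⟨X, Y, Z, z, τ, hne, e1, e2, e3, e4⟩ := hex
      refine ⟨(X, Y, Z), z, τ, ?_, ?_, ?_⟩
      · intro h0
        have hX : X = 0 := congrArg Prod.fst h0
        have hY : Y = 0 := congrArg (fun P : V => P.2.1) h0
        rcases hne with h | h
        · exact h hX
        · exact h hY
      · refine Prod.ext ?_ (Prod.ext ?_ ?_)
        · show Tc w₁ w₂ w₃ x y c₁ X + (D * (X 0 - Y 0)) • e0 = z • X + τ • (α • e0)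
          rw [e1, smul_smul]
        · show Tc w₁ w₂ w₃ x y c₂ Y + (D * (Y 0 - X 0)) • e0 = z • Y + τ • (β • e0)
          rw [e2, smul_smul]
        · show Tc w₁ w₂ w₃ x y c₃ Z = z • Z + τ • (- e0)
          rw [e3, smul_neg, sub_eq_add_neg]
      · rw [hBu]
        show w₁ * w₂ * (α * X 0 + β * Y 0 - Z 0) = 0
        rw [e4, mul_zero])
  refine ⟨y' * (w₁ * w₂), fun X Y Z z e1 e2 e3 => ?_⟩
  have h5 := hy' (X, Y, Z) z (by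
    rw [hBu]
    refine Prod.ext ?_ (Prod.ext ?_ ?_)
    · show Tc w₁ w₂ w₃ x y c₁ X + (D * (X 0 - Y 0)) • e0 +
        (y' * (w₁ * w₂ * (α * X 0 + β * Y 0 - Z 0))) • (α • e0) = z • X
      rw [← e1, smul_smul]
      congr 2
      ring
    · show Tc w₁ w₂ w₃ x y c₂ Y + (D * (Y 0 - X 0)) • e0 +
        (y' * (w₁ * w₂ * (α * X 0 + β * Y 0 - Z 0))) • (β • e0) = z • Y
      rw [← e2, smul_smul]
      congr 2
      ring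
    · show Tc w₁ w₂ w₃ x y c₃ Z +
        (y' * (w₁ * w₂ * (α * X 0 + β * Y 0 - Z 0))) • (- e0) = z • Z
      rw [← e3, smul_neg, mul_assoc y', ← sub_eq_add_neg])
  exact ⟨congrArg Prod.fst h5, congrArg (fun P : V => P.2.1) h5, congrArg (fun P : V => P.2.2) h5⟩

/-- **Three copies**, the third one coupled to the first one, if `1 + D w₃ / W ≠ 0`. Proof: let
`κ' = w₃ / W`, `t₃ = z₀ + 1 / (1 + D κ')` and `c₃` with `W c₃ - w₃ x - w₁ y = t₃`. `pencil` for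
`V = (Fin 3 → ZMod ℓ) × (Fin 3 → ZMod ℓ) × (Fin 3 → ZMod ℓ)`,
`T (X, Y, Z) = (Tc c₁ X + D (X₀ - Y₀) e0, Tc c₂ Y + D (Y₀ - X₀) e0, Tc c₃ Z)` (selfadjoint for the sum of the
forms: `bf e0 X' = w₁ w₂ X'₀`), `u = (e0, 0, - e0)`, `D' = w₁ w₂ y'`. `h1`: an eigenvector has `X = Y = 0` by
`hD`, and `Z = 0` or `Z = m τ` (`eigenvector`), and `B (0, 0, Z) u = - w₁ w₂ Z₀ = 0` gives `Z = 0`. `h2`:
`exists_resolvent` for `c₁` and `s = 1 + D κ'` gives `X` with `X₀ = κ' (1 + D κ')`; for `c₂` and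
`s = - D κ'` it gives `Y` with `Y₀ = D κ' κ'`; so `X₀ - Y₀ = κ'` and the first two components of
`T (X, Y, Z)` are `z₀ X - e0`, `z₀ Y`; for `c₃` and `s = -1` it gives `Z` with
`Z₀ = - κ' / (z₀ - t₃) = κ' (1 + D κ') = X₀`. So `T (X, Y, Z) = z₀ (X, Y, Z) - u` and `B (X, Y, Z) u = 0`. -/
theorem exists_three (h1 : w₁ ≠ 0) (h2 : w₂ ≠ 0) (h3 : w₃ ≠ 0) (h12 : w₁ + w₂ ≠ 0)
    (hW : w₁ + w₂ + w₃ ≠ 0) (hy : y ≠ 0) (hL : ∀ z, Lz w₁ w₂ w₃ x y z ≠ 0) {z₀ c₁ c₂ D : ZMod ℓ}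
    (hz : z₀ = (w₂ + w₃) * y - w₁ * w₃ * y / (w₁ + w₂))
    (ht₁ : (w₁ + w₂ + w₃) * c₁ - w₃ * x - w₁ * y = z₀ - 1)
    (ht₂ : (w₁ + w₂ + w₃) * c₂ - w₃ * x - w₁ * y = z₀ + 1)
    (hD : ∀ (X Y : Fin 3 → ZMod ℓ) (z : ZMod ℓ),
      Tc w₁ w₂ w₃ x y c₁ X + (D * (X 0 - Y 0)) • e0 = z • X →
      Tc w₁ w₂ w₃ x y c₂ Y + (D * (Y 0 - X 0)) • e0 = z • Y → X = 0 ∧ Y = 0)
    (hk : 1 + D * (w₃ / (w₁ + w₂ + w₃)) ≠ 0) :
    ∃ c₃ D' : ZMod ℓ, ∀ (X Y Z : Fin 3 → ZMod ℓ) (z : ZMod ℓ),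
      Tc w₁ w₂ w₃ x y c₁ X + (D * (X 0 - Y 0) + D' * (X 0 - Z 0)) • e0 = z • X →
      Tc w₁ w₂ w₃ x y c₂ Y + (D * (Y 0 - X 0)) • e0 = z • Y →
      Tc w₁ w₂ w₃ x y c₃ Z + (D' * (Z 0 - X 0)) • e0 = z • Z → X = 0 ∧ Y = 0 ∧ Z = 0 := by
  set W := w₁ + w₂ + w₃ with hWd
  set κ := w₃ / W with hκ
  have hκ0 : κ ≠ 0 := div_ne_zero h3 hW
  have hk0 : 1 + D * κ ≠ 0 := hk
  obtain ⟨c₃, hc₃⟩ : ∃ c₃ : ZMod ℓ, W * c₃ - w₃ * x - w₁ * y = z₀ + 1 / (1 + D * κ) :=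
    ⟨(z₀ + 1 / (1 + D * κ) + w₃ * x + w₁ * y) / W, by
      rw [mul_div_cancel₀ _ hW]; ring⟩
  obtain ⟨X, hX, hX0⟩ := exists_resolvent (s := 1 + D * κ) (t := z₀ - 1) (c := c₁) h1 h3 h12 hW hy
    hz ht₁.symm (by intro h; exact one_ne_zero (α := ZMod ℓ) (by linear_combination h))
  obtain ⟨Y, hY, hY0⟩ := exists_resolvent (s := -(D * κ)) (t := z₀ + 1) (c := c₂) h1 h3 h12 hW hy
    hz ht₂.symm (by intro h; exact one_ne_zero (α := ZMod ℓ) (by linear_combination -h))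
  obtain ⟨Z, hZ, hZ0⟩ := exists_resolvent (s := -1) (t := z₀ + 1 / (1 + D * κ)) (c := c₃) h1 h3 h12
    hW hy hz hc₃.symm (by
      intro h
      have : 1 / (1 + D * κ) = 0 := by linear_combination -h
      exact one_div_ne_zero hk0 this)
  have kX : X 0 = κ * (1 + D * κ) := by
    rw [hX0, show z₀ - (z₀ - 1) = 1 by ring, div_one]
  have kY : Y 0 = κ * (D * κ) := by
    rw [hY0, show z₀ - (z₀ + 1) = -1 by ring, div_neg, div_one]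
    ring
  have kZ : Z 0 = κ * (1 + D * κ) := by
    rw [hZ0, show z₀ - (z₀ + 1 / (1 + D * κ)) = -(1 / (1 + D * κ)) by ring, div_neg, div_div_eq_mul_div,
      div_one]
    ring
  obtain ⟨D', hD'⟩ := three_aux_h4 (c₃ := c₃) (α := 1) (β := 0) h1 h2 h3 hW hL hD
    ⟨X, Y, Z, z₀, -1, Or.inl (by
        intro h
        rw [h] at kX
        exact mul_ne_zero hκ0 hk0 kX.symm), by
        have e : X 0 - Y 0 = κ := by rw [kX, kY]; ring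
        have e2 : Tc w₁ w₂ w₃ x y c₁ X = z₀ • X - (1 + D * κ) • e0 := eq_sub_of_add_eq hX
        rw [e, e2]; module, by
        have e : Y 0 - X 0 = -κ := by rw [kX, kY]; ring
        have e2 : Tc w₁ w₂ w₃ x y c₂ Y = z₀ • Y - (-(D * κ)) • e0 := eq_sub_of_add_eq hY
        rw [e, e2]; module, by
        have e2 : Tc w₁ w₂ w₃ x y c₃ Z = z₀ • Z - (-1 : ZMod ℓ) • e0 := eq_sub_of_add_eq hZ
        exact e2, by
        rw [kX, kZ]; ring⟩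
  refine ⟨c₃, D', fun X Y Z z e1 e2 e3 => hD' X Y Z z ?_ ?_ ?_⟩
  · rw [← e1]; module
  · rw [← e2]; module
  · rw [← e3]; module

/-- **Three copies**, the third one coupled to the second one, if `1 + D w₃ / W = 0`. Proof: the same with
`u = (0, e0, - e0)`, `D κ' = -1`, `t₃ = z₀ - 1 / 2` (`1 - D κ' = 2`). `h2`: `exists_resolvent` for `c₂` and
`s = 1 - D κ' = 2` gives `Y` with `Y₀ = 2 κ' / (z₀ - t₂) = - 2 κ'`; for `c₁` and `s = D κ' = -1` it gives `X` with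
`X₀ = - κ' / (z₀ - t₁) = - κ'`; so `Y₀ - X₀ = - κ'`, `D (Y₀ - X₀) = 1`, `D (X₀ - Y₀) = -1`: the first two
components of `T (X, Y, Z)` are `z₀ X` and `z₀ Y - 2 e0 + e0 = z₀ Y - e0`; for `c₃` and `s = -1` it gives `Z`
with `Z₀ = - κ' / (z₀ - t₃) = - 2 κ' = Y₀`. -/
theorem exists_three' (hℓ2 : ℓ ≠ 2) (h1 : w₁ ≠ 0) (h2 : w₂ ≠ 0) (h3 : w₃ ≠ 0)
    (h12 : w₁ + w₂ ≠ 0) (hW : w₁ + w₂ + w₃ ≠ 0) (hy : y ≠ 0) (hL : ∀ z, Lz w₁ w₂ w₃ x y z ≠ 0)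
    {z₀ c₁ c₂ D : ZMod ℓ}
    (hz : z₀ = (w₂ + w₃) * y - w₁ * w₃ * y / (w₁ + w₂))
    (ht₁ : (w₁ + w₂ + w₃) * c₁ - w₃ * x - w₁ * y = z₀ - 1)
    (ht₂ : (w₁ + w₂ + w₃) * c₂ - w₃ * x - w₁ * y = z₀ + 1)
    (hD : ∀ (X Y : Fin 3 → ZMod ℓ) (z : ZMod ℓ),
      Tc w₁ w₂ w₃ x y c₁ X + (D * (X 0 - Y 0)) • e0 = z • X →
      Tc w₁ w₂ w₃ x y c₂ Y + (D * (Y 0 - X 0)) • e0 = z • Y → X = 0 ∧ Y = 0)
    (hk : 1 + D * (w₃ / (w₁ + w₂ + w₃)) = 0) :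
    ∃ c₃ D' : ZMod ℓ, ∀ (X Y Z : Fin 3 → ZMod ℓ) (z : ZMod ℓ),
      Tc w₁ w₂ w₃ x y c₁ X + (D * (X 0 - Y 0)) • e0 = z • X →
      Tc w₁ w₂ w₃ x y c₂ Y + (D * (Y 0 - X 0) + D' * (Y 0 - Z 0)) • e0 = z • Y →
      Tc w₁ w₂ w₃ x y c₃ Z + (D' * (Z 0 - Y 0)) • e0 = z • Z → X = 0 ∧ Y = 0 ∧ Z = 0 := by
  set W := w₁ + w₂ + w₃ with hWd
  set κ := w₃ / W with hκ
  have hκ0 : κ ≠ 0 := div_ne_zero h3 hW
  have hDk : D * κ = -1 := by linear_combination hk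
  have h20 : (2 : ZMod ℓ) ≠ 0 := by
    intro h
    have h4 : ((2 : ℕ) : ZMod ℓ) = 0 := by exact_mod_cast h
    rw [ZMod.natCast_eq_zero_iff] at h4
    have h5 := (Nat.prime_dvd_prime_iff_eq (Fact.out : ℓ.Prime) Nat.prime_two).1 h4
    exact hℓ2 h5
  obtain ⟨c₃, hc₃⟩ : ∃ c₃ : ZMod ℓ, W * c₃ - w₃ * x - w₁ * y = z₀ - 1 / 2 :=
    ⟨(z₀ - 1 / 2 + w₃ * x + w₁ * y) / W, by
      rw [mul_div_cancel₀ _ hW]; ring⟩
  obtain ⟨X, hX, hX0⟩ := exists_resolvent (s := -1) (t := z₀ - 1) (c := c₁) h1 h3 h12 hW hy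
    hz ht₁.symm (by intro h; exact one_ne_zero (α := ZMod ℓ) (by linear_combination h))
  obtain ⟨Y, hY, hY0⟩ := exists_resolvent (s := 2) (t := z₀ + 1) (c := c₂) h1 h3 h12 hW hy
    hz ht₂.symm (by intro h; exact one_ne_zero (α := ZMod ℓ) (by linear_combination -h))
  obtain ⟨Z, hZ, hZ0⟩ := exists_resolvent (s := -1) (t := z₀ - 1 / 2) (c := c₃) h1 h3 h12
    hW hy hz hc₃.symm (by
      intro h
      have : (1 : ZMod ℓ) / 2 = 0 := by linear_combination h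
      exact one_div_ne_zero h20 this)
  have kX : X 0 = -κ := by
    rw [hX0, show z₀ - (z₀ - 1) = 1 by ring, div_one]
    ring
  have kY : Y 0 = -(2 * κ) := by
    rw [hY0, show z₀ - (z₀ + 1) = -1 by ring, div_neg, div_one]
    ring
  have kZ : Z 0 = -(2 * κ) := by
    rw [hZ0, show z₀ - (z₀ - 1 / 2) = 1 / 2 by ring, div_div_eq_mul_div, div_one]
    ring
  obtain ⟨D', hD'⟩ := three_aux_h4 (c₃ := c₃) (α := 0) (β := 1) h1 h2 h3 hW hL hD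
    ⟨X, Y, Z, z₀, -1, Or.inl (by
        intro h
        rw [h] at kX
        exact hκ0 (by
          have : (0 : ZMod ℓ) = -κ := kX
          linear_combination this)), by
        have e : X 0 - Y 0 = κ := by rw [kX, kY]; ring
        have e2 : Tc w₁ w₂ w₃ x y c₁ X = z₀ • X - (-1 : ZMod ℓ) • e0 := eq_sub_of_add_eq hX
        rw [e, e2, hDk]; module, by
        have e : D * (Y 0 - X 0) = 1 := by rw [kX, kY]; linear_combination -hDk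
        have e2 : Tc w₁ w₂ w₃ x y c₂ Y = z₀ • Y - (2 : ZMod ℓ) • e0 := eq_sub_of_add_eq hY
        rw [e, e2]; module, by
        have e2 : Tc w₁ w₂ w₃ x y c₃ Z = z₀ • Z - (-1 : ZMod ℓ) • e0 := eq_sub_of_add_eq hZ
        exact e2, by
        rw [kY, kZ]; ring⟩
  refine ⟨c₃, D', fun X Y Z z e1 e2 e3 => hD' X Y Z z ?_ ?_ ?_⟩
  · rw [← e1]; module
  · rw [← e2]; module
  · rw [← e3]; module

end Pool.Agent.Lib.MP_89bcae_ag.Tri
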