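import Mathlib
import Pool.Agent.Lib.MP_89bcae_ag.Gt.P05

namespace Pool.Agent.Lib.MP_89bcae_ag.Tri

/-- Transport. -/
theorem PW.equiv {R : Type} [Field R] {κ κ' : Type} [Fintype κ] [Fintype κ'] (e : κ ≃ κ')
    {w₁ w₂ w₃ x y : R} (h : PW κ w₁ w₂ w₃ x y) : PW κ' w₁ w₂ w₃ x y := by
  obtain ⟨c, δ, hs, hX⟩ := h
  refine ⟨fun a => c (e.symm a), fun a b => δ (e.symm a) (e.symm b), fun a b => hs _ _,
    fun X z h a => ?_⟩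
  have h1 : ∀ a, X (e a) = 0 := by
    refine hX (fun a => X (e a)) z fun a => ?_
    have h2 := h (e a)
    simp only [e.symm_apply_apply] at h2
    have h3 : ∑ b, δ a (e.symm b) * (X (e a) 0 - X b 0) =
        ∑ b, δ a b * (X (e a) 0 - X (e b) 0) := by
      rw [← e.sum_comp]
      exact Finset.sum_congr rfl fun b _ => by rw [e.symm_apply_apply]
    rw [h3] at h2
    exact h2
  have h4 := h1 (e.symm a)
  rwa [e.apply_symm_apply] at h4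

/-- Disjoint union. (`c = Sum.elim c c'`, `δ = 0` between the two parts; `Fintype.sum_sum_type`.) -/
theorem PW.sum {R : Type} [Field R] {κ κ' : Type} [Fintype κ] [Fintype κ']
    {w₁ w₂ w₃ x y : R} (h : PW κ w₁ w₂ w₃ x y) (h' : PW κ' w₁ w₂ w₃ x y) :
    PW (κ ⊕ κ') w₁ w₂ w₃ x y := by
  obtain ⟨c, δ, hs, hX⟩ := h
  obtain ⟨c', δ', hs', hX'⟩ := h'
  refine ⟨Sum.elim c c', fun a b => Sum.elim (fun a => Sum.elim (fun b => δ a b) (fun _ => 0) b)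
    (fun a => Sum.elim (fun _ => 0) (fun b => δ' a b) b) a, ?_, fun X z h => ?_⟩
  · rintro (a | a) (b | b)
    · exact hs a b
    · rfl
    · rfl
    · exact hs' a b
  · have h1 : ∀ a, X (Sum.inl a) = 0 := by
      refine hX (fun a => X (Sum.inl a)) z fun a => ?_
      have h2 := h (Sum.inl a)
      rw [Fintype.sum_sum_type] at h2
      simp only [Sum.elim_inl, Sum.elim_inr, zero_mul, Finset.sum_const_zero, add_zero] at h2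
      exact h2
    have h2 : ∀ a, X (Sum.inr a) = 0 := by
      refine hX' (fun a => X (Sum.inr a)) z fun a => ?_
      have h2 := h (Sum.inr a)
      rw [Fintype.sum_sum_type] at h2
      simp only [Sum.elim_inl, Sum.elim_inr, zero_mul, Finset.sum_const_zero, zero_add] at h2
      exact h2
    rintro (a | a)
    · exact h1 a
    · exact h2 a

variable {ℓ : ℕ} [Fact ℓ.Prime] {w₁ w₂ w₃ x y : ZMod ℓ}

/-- Two copies: `exists_two` with `δ 0 1 = δ 1 0 = D / (w₁ + w₂)`, `δ 0 0 = δ 1 1 = 0`. -/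
theorem PW.two (hℓ2 : ℓ ≠ 2) (h1 : w₁ ≠ 0) (h2 : w₂ ≠ 0) (h3 : w₃ ≠ 0) (h12 : w₁ + w₂ ≠ 0)
    (hW : w₁ + w₂ + w₃ ≠ 0) (hy : y ≠ 0) (hL : ∀ z, Lz w₁ w₂ w₃ x y z ≠ 0) :
    PW (Fin 2) w₁ w₂ w₃ x y := by
  obtain ⟨z₀, hz⟩ : ∃ z₀, z₀ = (w₂ + w₃) * y - w₁ * w₃ * y / (w₁ + w₂) := ⟨_, rfl⟩
  obtain ⟨c₁, hc₁⟩ : ∃ c₁, (w₁ + w₂ + w₃) * c₁ - w₃ * x - w₁ * y = z₀ - 1 :=
    ⟨(z₀ - 1 + w₃ * x + w₁ * y) / (w₁ + w₂ + w₃), by rw [mul_div_cancel₀ _ hW]; ring⟩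
  obtain ⟨c₂, hc₂⟩ : ∃ c₂, (w₁ + w₂ + w₃) * c₂ - w₃ * x - w₁ * y = z₀ + 1 :=
    ⟨(z₀ + 1 + w₃ * x + w₁ * y) / (w₁ + w₂ + w₃), by rw [mul_div_cancel₀ _ hW]; ring⟩
  obtain ⟨D, hD⟩ := exists_two hℓ2 h1 h2 h3 h12 hW hy hL hz hc₁ hc₂
  obtain ⟨d, hd⟩ : ∃ d, (w₁ + w₂) * d = D := ⟨D / (w₁ + w₂), mul_div_cancel₀ _ h12⟩
  refine ⟨![c₁, c₂], ![![0, d], ![d, 0]], ?_, ?_⟩
  · intro a b
    fin_cases a <;> fin_cases b <;> rfl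
  · intro X z h
    have k0 := h 0
    have k1 := h 1
    rw [Fin.sum_univ_two] at k0 k1
    have e0' : (w₁ + w₂) * (![![0, d], ![d, 0]] 0 0 * (X 0 0 - X 0 0) +
        ![![0, d], ![d, 0]] 0 1 * (X 0 0 - X 1 0)) = D * (X 0 0 - X 1 0) := by
      change (w₁ + w₂) * (0 * (X 0 0 - X 0 0) + d * (X 0 0 - X 1 0)) = D * (X 0 0 - X 1 0)
      rw [← hd]
      ring
    have e1' : (w₁ + w₂) * (![![0, d], ![d, 0]] 1 0 * (X 1 0 - X 0 0) +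
        ![![0, d], ![d, 0]] 1 1 * (X 1 0 - X 1 0)) = D * (X 1 0 - X 0 0) := by
      change (w₁ + w₂) * (d * (X 1 0 - X 0 0) + 0 * (X 1 0 - X 1 0)) = D * (X 1 0 - X 0 0)
      rw [← hd]
      ring
    rw [e0'] at k0
    rw [e1'] at k1
    obtain ⟨r0, r1⟩ := hD (X 0) (X 1) z k0 k1
    intro a
    fin_cases a
    · exact r0
    · exact r1

/-- Three copies: `exists_two`, then `exists_three` (coupling of `0` and `2`) or `exists_three'` (coupling of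
`1` and `2`), with `δ 0 1 = D / (w₁ + w₂)`, and `δ = D' / (w₁ + w₂)` for the other coupling. -/
theorem PW.three (hℓ2 : ℓ ≠ 2) (h1 : w₁ ≠ 0) (h2 : w₂ ≠ 0) (h3 : w₃ ≠ 0) (h12 : w₁ + w₂ ≠ 0)
    (hW : w₁ + w₂ + w₃ ≠ 0) (hy : y ≠ 0) (hL : ∀ z, Lz w₁ w₂ w₃ x y z ≠ 0) :
    PW (Fin 3) w₁ w₂ w₃ x y := by
  obtain ⟨z₀, hz⟩ : ∃ z₀, z₀ = (w₂ + w₃) * y - w₁ * w₃ * y / (w₁ + w₂) := ⟨_, rfl⟩
  obtain ⟨c₁, hc₁⟩ : ∃ c₁, (w₁ + w₂ + w₃) * c₁ - w₃ * x - w₁ * y = z₀ - 1 :=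
    ⟨(z₀ - 1 + w₃ * x + w₁ * y) / (w₁ + w₂ + w₃), by rw [mul_div_cancel₀ _ hW]; ring⟩
  obtain ⟨c₂, hc₂⟩ : ∃ c₂, (w₁ + w₂ + w₃) * c₂ - w₃ * x - w₁ * y = z₀ + 1 :=
    ⟨(z₀ + 1 + w₃ * x + w₁ * y) / (w₁ + w₂ + w₃), by rw [mul_div_cancel₀ _ hW]; ring⟩
  obtain ⟨D, hD⟩ := exists_two hℓ2 h1 h2 h3 h12 hW hy hL hz hc₁ hc₂
  obtain ⟨d, hd⟩ : ∃ d, (w₁ + w₂) * d = D := ⟨D / (w₁ + w₂), mul_div_cancel₀ _ h12⟩
  -- the general case of couplings `d` of 0 1, `p` of 0 2, `q` of 1 2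
  have key : ∀ (c₃ p q : ZMod ℓ),
      (∀ (X Y Z : Fin 3 → ZMod ℓ) (z : ZMod ℓ),
        Tc w₁ w₂ w₃ x y c₁ X + (D * (X 0 - Y 0) + (w₁ + w₂) * p * (X 0 - Z 0)) • e0 = z • X →
        Tc w₁ w₂ w₃ x y c₂ Y + (D * (Y 0 - X 0) + (w₁ + w₂) * q * (Y 0 - Z 0)) • e0 = z • Y →
        Tc w₁ w₂ w₃ x y c₃ Z + ((w₁ + w₂) * p * (Z 0 - X 0) + (w₁ + w₂) * q * (Z 0 - Y 0)) • e0 =
          z • Z → X = 0 ∧ Y = 0 ∧ Z = 0) → PW (Fin 3) w₁ w₂ w₃ x y := by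
    intro c₃ p q hk
    refine ⟨![c₁, c₂, c₃], ![![0, d, p], ![d, 0, q], ![p, q, 0]], ?_, ?_⟩
    · intro a b
      fin_cases a <;> fin_cases b <;> rfl
    · intro X z h
      have k0 := h 0
      have k1 := h 1
      have k2 := h 2
      rw [Fin.sum_univ_three] at k0 k1 k2
      have e0' : (w₁ + w₂) * (![![0, d, p], ![d, 0, q], ![p, q, 0]] 0 0 * (X 0 0 - X 0 0) +
          ![![0, d, p], ![d, 0, q], ![p, q, 0]] 0 1 * (X 0 0 - X 1 0) +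
          ![![0, d, p], ![d, 0, q], ![p, q, 0]] 0 2 * (X 0 0 - X 2 0)) =
          D * (X 0 0 - X 1 0) + (w₁ + w₂) * p * (X 0 0 - X 2 0) := by
        change (w₁ + w₂) * (0 * (X 0 0 - X 0 0) + d * (X 0 0 - X 1 0) + p * (X 0 0 - X 2 0)) = _
        rw [← hd]
        ring
      have e1' : (w₁ + w₂) * (![![0, d, p], ![d, 0, q], ![p, q, 0]] 1 0 * (X 1 0 - X 0 0) +
          ![![0, d, p], ![d, 0, q], ![p, q, 0]] 1 1 * (X 1 0 - X 1 0) +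
          ![![0, d, p], ![d, 0, q], ![p, q, 0]] 1 2 * (X 1 0 - X 2 0)) =
          D * (X 1 0 - X 0 0) + (w₁ + w₂) * q * (X 1 0 - X 2 0) := by
        change (w₁ + w₂) * (d * (X 1 0 - X 0 0) + 0 * (X 1 0 - X 1 0) + q * (X 1 0 - X 2 0)) = _
        rw [← hd]
        ring
      have e2' : (w₁ + w₂) * (![![0, d, p], ![d, 0, q], ![p, q, 0]] 2 0 * (X 2 0 - X 0 0) +
          ![![0, d, p], ![d, 0, q], ![p, q, 0]] 2 1 * (X 2 0 - X 1 0) +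
          ![![0, d, p], ![d, 0, q], ![p, q, 0]] 2 2 * (X 2 0 - X 2 0)) =
          (w₁ + w₂) * p * (X 2 0 - X 0 0) + (w₁ + w₂) * q * (X 2 0 - X 1 0) := by
        change (w₁ + w₂) * (p * (X 2 0 - X 0 0) + q * (X 2 0 - X 1 0) + 0 * (X 2 0 - X 2 0)) = _
        ring
      rw [e0'] at k0
      rw [e1'] at k1
      rw [e2'] at k2
      obtain ⟨r0, r1, r2⟩ := hk (X 0) (X 1) (X 2) z k0 k1 k2
      intro a
      fin_cases a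
      · exact r0
      · exact r1
      · exact r2
  by_cases hk : 1 + D * (w₃ / (w₁ + w₂ + w₃)) = 0
  · obtain ⟨c₃, D', hD'⟩ := exists_three' hℓ2 h1 h2 h3 h12 hW hy hL hz hc₁ hc₂ hD hk
    refine key c₃ 0 (D' / (w₁ + w₂)) ?_
    intro X Y Z z e1 e2 e3
    rw [mul_div_cancel₀ _ h12] at e2 e3
    rw [mul_zero, zero_mul, add_zero] at e1
    rw [mul_zero, zero_mul, zero_add] at e3
    exact hD' X Y Z z e1 e2 e3
  · obtain ⟨c₃, D', hD'⟩ := exists_three h1 h2 h3 h12 hW hy hL hz hc₁ hc₂ hD hk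
    refine key c₃ (D' / (w₁ + w₂)) 0 ?_
    intro X Y Z z e1 e2 e3
    rw [mul_div_cancel₀ _ h12] at e1 e3
    rw [mul_zero, zero_mul, add_zero] at e2
    rw [mul_zero, zero_mul, add_zero] at e3
    exact hD' X Y Z z e1 e2 e3

/-- All numbers of copies `n ≥ 2`. Proof: strong induction: `n = 2`, `n = 3`, and `n = m + 2`
(`PW.sum` for `Fin m ⊕ Fin 2`, `finSumFinEquiv`). -/
theorem PW.all (hℓ2 : ℓ ≠ 2) (h1 : w₁ ≠ 0) (h2 : w₂ ≠ 0) (h3 : w₃ ≠ 0) (h12 : w₁ + w₂ ≠ 0)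
    (hW : w₁ + w₂ + w₃ ≠ 0) (hy : y ≠ 0) (hL : ∀ z, Lz w₁ w₂ w₃ x y z ≠ 0) {n : ℕ} (hn : 2 ≤ n) :
    PW (Fin n) w₁ w₂ w₃ x y := by
  have h2' := PW.two hℓ2 h1 h2 h3 h12 hW hy hL
  have h3' := PW.three hℓ2 h1 h2 h3 h12 hW hy hL
  have key : ∀ m : ℕ, PW (Fin (m + 2)) w₁ w₂ w₃ x y ∧ PW (Fin (m + 3)) w₁ w₂ w₃ x y := by
    intro m
    induction m with
    | zero => exact ⟨h2', h3'⟩
    | succ m ih =>
      have h4 : PW (Fin (m + 2 + 2)) w₁ w₂ w₃ x y := PW.equiv finSumFinEquiv (PW.sum ih.1 h2')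
      exact ⟨ih.2, h4⟩
  obtain ⟨m, rfl⟩ := Nat.exists_eq_add_of_le hn
  rw [add_comm]
  exact (key m).1

end Pool.Agent.Lib.MP_89bcae_ag.Tri
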