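import Mathlib
import Pool.Agent.Lib.MP_89bcae_ag.Gt.P03
import Pool.Agent.Lib.MP_89bcae_ag.Gt.P06

open scoped Classical

namespace Pool.Agent.Lib.MP_89bcae_ag.Tri

variable {ℓ : ℕ} [Fact ℓ.Prime]

theorem P07a_sum_h75 {ι : Type} [Fintype ι] {R : Type} [AddCommMonoid R] {i j l : ι}
    (hil : l ≠ i) (hjl : l ≠ j) (hun : ∀ t, t = i ∨ t = j ∨ t = l) (f : ι → R) :
    ∑ t ∈ Finset.univ.filter (fun t => t ≠ i ∧ t ≠ j), f t = f l := by
  refine Finset.sum_eq_single l ?_ ?_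
  · intro t ht htl
    rw [Finset.mem_filter] at ht
    rcases hun t with h | h | h
    · exact absurd h ht.2.1
    · exact absurd h ht.2.2
    · exact absurd h htl
  · intro h
    exact absurd (Finset.mem_filter.2 ⟨Finset.mem_univ _, hil, hjl⟩) h

theorem P07a_filt_h75 {n : ℕ} {R : Type} [Ring R] (a : Fin n) (d X : Fin n → R) :
    ∑ b ∈ Finset.univ.filter (fun b => b ≠ a), d b * (X a - X b) = ∑ b, d b * (X a - X b) := by
  refine Finset.sum_subset (Finset.filter_subset _ _) ?_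
  intro b _ hb
  rw [Finset.mem_filter, not_and, not_not] at hb
  rw [hb (Finset.mem_univ _), sub_self, mul_zero]

theorem P07a_ext_h75 {R : Type} {X Y : Fin 3 → R} (h0 : X 0 = Y 0) (h1 : X 1 = Y 1)
    (h2 : X 2 = Y 2) : X = Y := by
  funext i
  fin_cases i
  · exact h0
  · exact h1
  · exact h2

/-- From the coordinates to `GoodW`. Proof: let `w₁ = w s₁`, ...; given `x a i j`, `z`, `γ` put
`X a = ![x a s₁ s₂, x a s₂ s₃, x a s₃ s₁]` and `G = ![γ s₁ - γ s₂, γ s₂ - γ s₃, γ s₃ - γ s₁]`. The equations for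
the pairs `(s₁, s₂)`, `(s₂, s₃)`, `(s₃, s₁)` are
`Tc (c₀ a) (X a) + ((w₁ + w₂) ∑ b, δ₀ a b (X a 0 - X b 0)) e0 = z X a + G` (the sum over `l` has one term, the
third element; the term `b = a` is zero; `pr_eq_pr`). As `Lz ≠ 0` there is `Y` with `phi Y = 0` and
`(z - (w₁ + w₂) X) Y₀ + w₃ y Y₁ = - G₀`, `w₁ x Y₀ + (z - (w₂ + w₃) y) Y₁ = - G₁` (Cramer), that is
`Tc c Y = z Y + G` for all `c`. The `X a - Y` satisfy the hypothesis of `h`, so `X a = Y` for all `a`. Take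
`b s₁ = Y₀ + Y₁`, `b s₂ = Y₁`, `b s₃ = 0`. -/
theorem goodW_of_PW {ι : Type} [Fintype ι] {s₁ s₂ s₃ : ι} (h12 : s₁ ≠ s₂)
    (h23 : s₂ ≠ s₃) (h13 : s₁ ≠ s₃) (hun : ∀ i, i = s₁ ∨ i = s₂ ∨ i = s₃) {w : ι → ZMod ℓ} {n : ℕ}
    {x y : ZMod ℓ} (hL : ∀ z, Lz (w s₁) (w s₂) (w s₃) x y z ≠ 0) (c₀ : Fin n → ZMod ℓ)
    (δ₀ : Fin n → Fin n → ZMod ℓ)
    (h : ∀ (X : Fin n → Fin 3 → ZMod ℓ) (z : ZMod ℓ),
      (∀ a, Tc (w s₁) (w s₂) (w s₃) x y (c₀ a) (X a) +
        ((w s₁ + w s₂) * ∑ b, δ₀ a b * (X a 0 - X b 0)) • e0 = z • X a) → ∀ a, X a = 0) :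
    GoodW w (fun T => if T = pr s₁ s₂ then x else if T = pr s₂ s₃ then y else 0)
      (fun a _ => c₀ a) (fun T a b => if T = pr s₁ s₂ then δ₀ a b else 0) := by
  intro xx z γ hanti heq
  have hb12 : (fun T => if T = pr s₁ s₂ then x else if T = pr s₂ s₃ then y else 0) (pr s₁ s₂) = x :=
    if_pos rfl
  have hn1 : pr s₂ s₃ ≠ pr s₁ s₂ := by
    intro h'
    rcases pr_eq_pr.1 h' with ⟨h1, _⟩ | ⟨_, h1⟩
    · exact h12 h1.symm
    · exact h13 h1.symm
  have hn2 : pr s₃ s₁ ≠ pr s₁ s₂ := by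
    intro h'
    rcases pr_eq_pr.1 h' with ⟨h1, _⟩ | ⟨h1, _⟩
    · exact h13 h1.symm
    · exact h23 h1.symm
  have hn3 : pr s₃ s₁ ≠ pr s₂ s₃ := by
    intro h'
    rcases pr_eq_pr.1 h' with ⟨h1, _⟩ | ⟨_, h1⟩
    · exact h23 h1.symm
    · exact h12 h1
  -- the equations of the three pairs
  have E1 : ∀ a, (w s₁ + w s₂) * (x * xx a s₁ s₂ + ∑ b, δ₀ a b * (xx a s₁ s₂ - xx b s₁ s₂)) +
      w s₃ * ((c₀ a - x) * xx a s₁ s₂ - (c₀ a - x - 0) * xx a s₁ s₃ +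
        (c₀ a - x - y) * xx a s₂ s₃) = z * xx a s₁ s₂ + (γ s₁ - γ s₂) := by
    intro a
    have h1 := heq a s₁ s₂ h12
    rw [P07a_sum_h75 h13.symm h23.symm hun] at h1
    simp only [if_true, if_neg hn1, pr_comm s₁ s₃, if_neg hn2, if_neg hn3] at h1
    rw [P07a_filt_h75 a (fun b => δ₀ a b) (fun b => xx b s₁ s₂)] at h1
    exact h1
  have E2 : ∀ a, (w s₂ + w s₃) * (y * xx a s₂ s₃) +
      w s₁ * ((c₀ a - y) * xx a s₂ s₃ - (c₀ a - y - x) * xx a s₂ s₁ +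
        (c₀ a - y - 0) * xx a s₃ s₁) = z * xx a s₂ s₃ + (γ s₂ - γ s₃) := by
    intro a
    have h1 := heq a s₂ s₃ h23
    rw [P07a_sum_h75 h12 h13 (fun t => by
      rcases hun t with h | h | h
      · exact Or.inr (Or.inr h)
      · exact Or.inl h
      · exact Or.inr (Or.inl h))] at h1
    simp only [if_true, if_neg hn1, pr_comm s₂ s₁, if_neg hn2, if_neg hn3, zero_mul,
      Finset.sum_const_zero, add_zero] at h1
    exact h1
  have E3 : ∀ a, w s₂ * ((c₀ a - 0) * xx a s₃ s₁ - (c₀ a - 0 - y) * xx a s₃ s₂ +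
        (c₀ a - 0 - x) * xx a s₁ s₂) = z * xx a s₃ s₁ + (γ s₃ - γ s₁) := by
    intro a
    have h1 := heq a s₃ s₁ h13.symm
    rw [P07a_sum_h75 h23 h12.symm (fun t => by
      rcases hun t with h | h | h
      · exact Or.inr (Or.inl h)
      · exact Or.inr (Or.inr h)
      · exact Or.inl h)] at h1
    simp only [if_true, if_neg hn1, pr_comm s₃ s₂, if_neg hn2, if_neg hn3, zero_mul,
      Finset.sum_const_zero, add_zero, mul_zero, zero_add] at h1
    simp only [sub_zero]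
    simp only [sub_zero] at h1
    exact h1
  -- the solution of the equation with the gradient
  have hD := hL z
  set D : ZMod ℓ := Lz (w s₁) (w s₂) (w s₃) x y z with hDdef
  set G0 : ZMod ℓ := γ s₁ - γ s₂ with hG0
  set G1 : ZMod ℓ := γ s₂ - γ s₃ with hG1
  obtain ⟨Y0, Y1, hY0, hY1⟩ : ∃ Y0 Y1 : ZMod ℓ,
      (z - (w s₁ + w s₂) * x) * Y0 + w s₃ * y * Y1 = -G0 ∧
      w s₁ * x * Y0 + (z - (w s₂ + w s₃) * y) * Y1 = -G1 := by
    refine ⟨(-G0 * (z - (w s₂ + w s₃) * y) + G1 * (w s₃ * y)) / D,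
      (-G1 * (z - (w s₁ + w s₂) * x) + G0 * (w s₁ * x)) / D, ?_, ?_⟩
    · rw [mul_div_assoc', mul_div_assoc', ← add_div, div_eq_iff hD, hDdef, Lz]
      ring
    · rw [mul_div_assoc', mul_div_assoc', ← add_div, div_eq_iff hD, hDdef, Lz]
      ring
  have key : ∀ a, (![xx a s₁ s₂ - Y0, xx a s₂ s₃ - Y1, xx a s₃ s₁ - (-Y0 - Y1)] :
      Fin 3 → ZMod ℓ) = 0 := by
    refine h (fun a => ![xx a s₁ s₂ - Y0, xx a s₂ s₃ - Y1, xx a s₃ s₁ - (-Y0 - Y1)]) z ?_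
    intro a
    have e1 := E1 a
    have e2 := E2 a
    have e3 := E3 a
    rw [hanti a s₃ s₁ h13.symm] at e1
    rw [hanti a s₁ s₂ h12] at e2
    rw [hanti a s₂ s₃ h23] at e3
    refine P07a_ext_h75 ?_ ?_ ?_
    · have hsum : ∑ b, δ₀ a b * ((xx a s₁ s₂ - Y0) - (xx b s₁ s₂ - Y0)) =
          ∑ b, δ₀ a b * (xx a s₁ s₂ - xx b s₁ s₂) :=
        Finset.sum_congr rfl fun b _ => by ring
      simp only [Tc, e0, phi, Pi.add_apply, Pi.smul_apply, smul_eq_mul, Matrix.cons_val_zero,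
        Matrix.cons_val_one, Matrix.cons_val, hsum]
      linear_combination e1 + hY0
    · simp only [Tc, e0, phi, Pi.add_apply, Pi.smul_apply, smul_eq_mul, Matrix.cons_val_zero,
        Matrix.cons_val_one, Matrix.cons_val]
      linear_combination e2 + hY1
    · simp only [Tc, e0, phi, Pi.add_apply, Pi.smul_apply, smul_eq_mul, Matrix.cons_val_zero,
        Matrix.cons_val_one, Matrix.cons_val]
      have hG2 : γ s₃ - γ s₁ = -G0 - G1 := by rw [hG0, hG1]; ring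
      rw [hG2] at e3
      linear_combination e3 - hY0 - hY1
  have k0 : ∀ a, xx a s₁ s₂ = Y0 := fun a => by
    have := congrFun (key a) 0
    simpa [sub_eq_zero] using this
  have k1 : ∀ a, xx a s₂ s₃ = Y1 := fun a => by
    have := congrFun (key a) 1
    simpa [sub_eq_zero] using this
  have k2 : ∀ a, xx a s₃ s₁ = -Y0 - Y1 := fun a => by
    have := congrFun (key a) 2
    simp only [Matrix.cons_val, Pi.zero_apply] at this
    exact sub_eq_zero.1 this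
  obtain ⟨bb, b1, b2, b3⟩ : ∃ bb : ι → ZMod ℓ, bb s₁ = Y0 + Y1 ∧ bb s₂ = Y1 ∧ bb s₃ = 0 :=
    ⟨fun i => if i = s₁ then Y0 + Y1 else if i = s₂ then Y1 else 0, if_pos rfl,
      (if_neg h12.symm).trans (if_pos rfl), (if_neg h13.symm).trans (if_neg h23.symm)⟩
  refine ⟨bb, fun a i j hij => ?_⟩
  rcases hun i with h1 | h1 | h1 <;> rcases hun j with h2 | h2 | h2
  · exact absurd (h1.trans h2.symm) hij
  · rw [h1, h2, b1, b2, k0]; ring
  · rw [h1, h2, b1, b3, hanti a _ _ h13.symm, k2]; ring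
  · rw [h1, h2, b1, b2, hanti a _ _ h12, k0]; ring
  · exact absurd (h1.trans h2.symm) hij
  · rw [h1, h2, b2, b3, k1]; ring
  · rw [h1, h2, b1, b3, k2]; ring
  · rw [h1, h2, b2, b3, hanti a _ _ h23, k1]; ring
  · exact absurd (h1.trans h2.symm) hij

/-- The three elements, named so that the sum of the first two weights is not zero. -/
theorem exists_labels_h54 (hℓ2 : ℓ ≠ 2) {ι : Type} [Fintype ι]
    (hι : Fintype.card ι = 3) {w : ι → ZMod ℓ} (hw : ∀ i, w i ≠ 0) :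
    ∃ s₁ s₂ s₃ : ι, s₁ ≠ s₂ ∧ s₂ ≠ s₃ ∧ s₁ ≠ s₃ ∧ (∀ i, i = s₁ ∨ i = s₂ ∨ i = s₃) ∧
      w s₁ + w s₂ ≠ 0 := by
  have h2 : (2 : ZMod ℓ) ≠ 0 := by
    intro h
    have h' : ((2 : ℕ) : ZMod ℓ) = 0 := by exact_mod_cast h
    rw [ZMod.natCast_eq_zero_iff] at h'
    exact hℓ2 ((Nat.prime_dvd_prime_iff_eq Fact.out Nat.prime_two).1 h')
  rw [← Finset.card_univ, Finset.card_eq_three] at hι
  obtain ⟨a, b, c, hab, hac, hbc, hu⟩ := hι
  have hun : ∀ i, i = a ∨ i = b ∨ i = c := by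
    intro i
    have := Finset.mem_univ i
    rw [hu] at this
    simpa using this
  by_cases h1 : w a + w b = 0
  · by_cases h3 : w b + w c = 0
    · by_cases h4 : w a + w c = 0
      · exfalso
        have : 2 * w a = 0 := by linear_combination h1 + h4 - h3
        rcases mul_eq_zero.1 this with h | h
        · exact h2 h
        · exact hw a h
      · exact ⟨a, c, b, hac, hbc.symm, hab, fun i => by
          rcases hun i with h | h | h
          · exact Or.inl h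
          · exact Or.inr (Or.inr h)
          · exact Or.inr (Or.inl h), h4⟩
    · exact ⟨b, c, a, hbc, hac.symm, hab.symm, fun i => by
          rcases hun i with h | h | h
          · exact Or.inr (Or.inr h)
          · exact Or.inl h
          · exact Or.inr (Or.inl h), h3⟩
  · exact ⟨a, b, c, hab, hbc, hac, hun, h1⟩

/-- **Existence.** Proof: `ι = {s₁, s₂, s₃}` with `w s₁ + w s₂ ≠ 0` (if all the sums of two weights were zero
then `2 w i = 0`; rename the elements); `exists_xy`, `PW.all`, `goodW_of_PW`. -/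
theorem exists_goodW (hℓ2 : ℓ ≠ 2) {ι : Type} [Fintype ι]
    (hι : Fintype.card ι = 3) {w : ι → ZMod ℓ} (hw : ∀ i, w i ≠ 0) (hs : ∑ i, w i ≠ 0) {n : ℕ}
    (hn : 2 ≤ n) :
    ∃ (β : Finset ι → ZMod ℓ) (c : Fin n → Finset ι → ZMod ℓ)
      (δ : Finset ι → Fin n → Fin n → ZMod ℓ), (∀ T a b, δ T a b = δ T b a) ∧
      GoodW w β c δ ∧ ∃ i j, i ≠ j ∧ β (pr i j) ≠ 0 := by
  obtain ⟨s₁, s₂, s₃, h12, h23, h13, hun, hw12⟩ := exists_labels_h54 hℓ2 hι hw
  have hsum : ∑ i, w i = w s₁ + w s₂ + w s₃ := by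
    have hu : (Finset.univ : Finset ι) = {s₁, s₂, s₃} := by
      ext i
      simpa using hun i
    rw [hu, Finset.sum_insert, Finset.sum_insert, Finset.sum_singleton, add_assoc]
    · simpa using h23
    · simpa using ⟨h12, h13⟩
  rw [hsum] at hs
  obtain ⟨x, y, hx, hy, hL⟩ := exists_xy hℓ2 (hw s₁) (hw s₂) (hw s₃) hw12 hs
  obtain ⟨c₀, δ₀, hsym, h⟩ := PW.all (x := x) (y := y) hℓ2 (hw s₁) (hw s₂) (hw s₃) hw12 hs hy hL hn
  refine ⟨_, _, _, ?_, goodW_of_PW h12 h23 h13 hun hL c₀ δ₀ h, s₁, s₂, h12, ?_⟩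
  · intro T a b
    by_cases hT : T = pr s₁ s₂
    · rw [if_pos hT, if_pos hT, hsym]
    · rw [if_neg hT, if_neg hT]
  · rw [if_pos rfl]
    exact hx

end Pool.Agent.Lib.MP_89bcae_ag.Tri
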