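import Mathlib
import Pool.Agent.Lib.MP_89bcae_ag.Gt.Defs
import Pool.Agent.Lib.MP_89bcae_ag.Gr.E06

/-!
# Homomorphisms with arbitrary symbols and couplings
-/

open Polynomial

open scoped Classical

namespace Pool.Agent.Lib.MP_89bcae_ag

open Superelliptic

variable {ι : Type} [Fintype ι] [LinearOrder ι] {n : ℕ} {F : Type} [Field F] [Algebra ℚ F]

omit [Fintype ι] [LinearOrder ι] in
/-- Linear combinations of homomorphisms with copies and couplings. -/
theorem copyW_sum_h7 {ℓ : ℕ} {α : ι → ℚ[X]} {nd : ι → ι → Fin n → F} {κ : Type} (s : Finset κ)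
    (k : κ → ZMod ℓ) (ν : κ → F → ZMod ℓ) (β : κ → Finset ι → ZMod ℓ)
    (c : κ → Fin n → Finset ι → ZMod ℓ) (δ : κ → Finset ι → Fin n → Fin n → ZMod ℓ)
    (h : ∀ t, CopyW (ν t) α nd (β t) (c t) (δ t)) :
    CopyW (fun x => ∑ t ∈ s, k t * ν t x) α nd (fun T => ∑ t ∈ s, k t * β t T)
      (fun a T => ∑ t ∈ s, k t * c t a T) (fun T a b => ∑ t ∈ s, k t * δ t T a b) where
  lead i j hij := Finset.sum_congr rfl (fun t _ => by rw [(h t).lead i j hij])
  par i j hij a b hab := Finset.sum_congr rfl (fun t _ => by rw [(h t).par i j hij a b hab])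
  adj i j l hij hjl hil a b := by
    rw [← Finset.sum_sub_distrib, ← Finset.sum_sub_distrib]
    by_cases hab : a = b
    · rw [if_pos hab]
      refine Finset.sum_congr rfl (fun t _ => ?_)
      rw [(h t).adj i j l hij hjl hil a b, if_pos hab]
      ring
    · rw [if_neg hab]
      refine Finset.sum_eq_zero (fun t _ => ?_)
      rw [(h t).adj i j l hij hjl hil a b, if_neg hab, mul_zero]

omit [Fintype ι] [LinearOrder ι] in
theorem copyW_add_h7 {ℓ : ℕ} {α : ι → ℚ[X]} {nd : ι → ι → Fin n → F} {ν ν' : F → ZMod ℓ}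
    {β β' : Finset ι → ZMod ℓ} {c c' : Fin n → Finset ι → ZMod ℓ}
    {δ δ' : Finset ι → Fin n → Fin n → ZMod ℓ} (h : CopyW ν α nd β c δ)
    (h' : CopyW ν' α nd β' c' δ') :
    CopyW (fun x => ν x + ν' x) α nd (fun T => β T + β' T) (fun a T => c a T + c' a T)
      (fun T a b => δ T a b + δ' T a b) where
  lead i j hij := by
    show ν _ + ν' _ = _
    rw [h.lead i j hij, h'.lead i j hij]
  par i j hij a b hab := by
    show ν _ + ν' _ = _
    rw [h.par i j hij a b hab, h'.par i j hij a b hab]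
  adj i j l hij hjl hil a b := by
    show ν _ + ν' _ = _
    rw [h.adj i j l hij hjl hil a b, h'.adj i j l hij hjl hil a b]
    by_cases hab : a = b
    · rw [if_pos hab, if_pos hab, if_pos hab]
      ring
    · rw [if_neg hab, if_neg hab, if_neg hab, add_zero]

omit [Fintype ι] [LinearOrder ι] in
/-- Only the values at pairs and triples matter. -/
theorem copyW_congr_h7 {ℓ : ℕ} {α : ι → ℚ[X]} {nd : ι → ι → Fin n → F} {ν : F → ZMod ℓ}
    {β β' : Finset ι → ZMod ℓ} {c c' : Fin n → Finset ι → ZMod ℓ}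
    {δ δ' : Finset ι → Fin n → Fin n → ZMod ℓ} (h : CopyW ν α nd β c δ)
    (hβ : ∀ T : Finset ι, T.card = 2 → β T = β' T)
    (hc : ∀ a (T : Finset ι), T.card = 3 → c a T = c' a T)
    (hδ : ∀ (T : Finset ι), T.card = 2 → ∀ a b, a ≠ b → δ T a b = δ' T a b) :
    CopyW ν α nd β' c' δ' where
  lead i j hij := by rw [h.lead i j hij, hβ _ (card_pr hij)]
  par i j hij a b hab := by rw [h.par i j hij a b hab, hδ _ (card_pr hij) a b hab]
  adj i j l hij hjl hil a b := by
    rw [h.adj i j l hij hjl hil a b, hβ _ (card_pr hij), hβ _ (card_pr hil),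
      hc _ _ (card_tr hij hil hjl)]

/-- One triangle in one copy. -/
theorem copyW_triple_h7 [IsAlgClosure ℚ F] {ℓ : ℕ} (hℓ : ℓ.Prime) {v : ι × Fin (n + 1) → ℤ}
    (h : GoodH v) (hn : 1 ≤ n) {nd : ι → ι → Fin n → F} (hN : Nodes (gpolQ v) nd)
    (a₀ : Fin n) (T : Finset ι) :
    ∃ ν : F → ZMod ℓ, IsVal (IntermediateField.adjoin ℚ (nodes ℚ F (gpolQ v))).toSubfield ν ∧
      CopyW ν (gpolQ v) nd (fun _ => 0)
        (fun a T' => if a = a₀ ∧ T' = T ∧ T.card = 3 then 1 else 0) (fun _ _ _ => 0) := by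
  by_cases hT : T.card = 3
  swap
  · refine ⟨fun _ => 0, ⟨fun _ _ _ _ _ _ => (add_zero 0).symm, rfl⟩, ⟨?_, ?_, ?_⟩⟩
    · intro i j hij
      rfl
    · intro i j hij a b hab
      rfl
    · intro i j l hij hjl hil a b
      by_cases hab : a = b
      · rw [if_pos hab, if_neg (fun hh => hT hh.2.2)]
        ring
      · rw [if_neg hab]
  obtain ⟨i, j, l, hij, hil, hjl, hTe⟩ := Finset.card_eq_three.mp hT
  have hm : ∀ {x y : ι} (_ : x ≠ y) (a : Fin n),
      aeval (nd x y a) (gpolQ v x) = aeval (nd x y a) (gpolQ v y) :=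
    fun {x y} hxy a => (hN.mem x y hxy _).2 ⟨a, rfl⟩
  obtain ⟨ν, hν, hD⟩ := exists_val_B hℓ h hn hij hjl hil (nd i j a₀) (nd j l a₀) (nd i l a₀)
    (hm hij a₀) (hm hjl a₀) (hm hil a₀)
  refine ⟨ν, hν, ?_, ?_, ?_⟩
  · intro x y hxy
    exact hD.lead x y hxy
  · intro x y hxy a b hab
    rw [hD.dif _ (hN.mem_nodes_h30 hxy a) _ (hN.mem_nodes_h30 hxy b) fun he => hab (hN.inj x y hxy he),
      if_neg]
    rintro ⟨h1, h2⟩
    rw [triple_mem_iff_h30 h hN hij hil hjl hxy] at h1 h2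
    exact hab (h1.1.trans h2.1.symm)
  · intro x y z hxy hyz hxz a b
    have hne : nd x y a ≠ nd x z b := by
      intro he
      rcases Set.pair_eq_pair_iff.mp (Nodes.ne h hN hxy hxz he).1 with ⟨-, h2⟩ | ⟨h1, -⟩
      · exact hyz h2
      · exact hxz h1
    have hxyz : ∀ (inst : DecidableEq ι), (x ∈ (@insert ι (Finset ι) (@Finset.instInsert ι inst) i
        (@insert ι (Finset ι) (@Finset.instInsert ι inst) j {l})) ∧
        y ∈ (@insert ι (Finset ι) (@Finset.instInsert ι inst) i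
        (@insert ι (Finset ι) (@Finset.instInsert ι inst) j {l})) ∧
        z ∈ (@insert ι (Finset ι) (@Finset.instInsert ι inst) i
        (@insert ι (Finset ι) (@Finset.instInsert ι inst) j {l}))) ↔ tr x y z = T := by
      intro inst
      have e : (@insert ι (Finset ι) (@Finset.instInsert ι inst) i
        (@insert ι (Finset ι) (@Finset.instInsert ι inst) j {l})) = T := by
        rw [hTe]
        ext t
        simp
      rw [e]
      constructor
      · rintro ⟨hx, hy, hz⟩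
        apply Finset.eq_of_subset_of_card_le
        · intro t ht
          rcases mem_tr.1 ht with rfl | rfl | rfl
          · exact hx
          · exact hy
          · exact hz
        · rw [hT, card_tr hxy hxz hyz]
      · intro he
        rw [← he]
        exact ⟨mem_tr.2 (Or.inl rfl), mem_tr.2 (Or.inr (Or.inl rfl)), mem_tr.2 (Or.inr (Or.inr rfl))⟩
    rw [hD.dif _ (hN.mem_nodes_h30 hxy a) _ (hN.mem_nodes_h30 hxz b) hne]
    have hiff : (nd x y a ∈ ({nd i j a₀, nd j l a₀, nd i l a₀} : Set F) ∧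
        nd x z b ∈ ({nd i j a₀, nd j l a₀, nd i l a₀} : Set F)) ↔
        (a = b ∧ a = a₀ ∧ tr x y z = T ∧ T.card = 3) := by
      rw [triple_mem_iff_h30 h hN hij hil hjl hxy, triple_mem_iff_h30 h hN hij hil hjl hxz,
        ← hxyz _]
      constructor
      · rintro ⟨⟨h1, hx, hy⟩, h2, -, hz⟩
        exact ⟨h1.trans h2.symm, h1, ⟨hx, hy, hz⟩, hT⟩
      · rintro ⟨h1, h2, ⟨hx, hy, hz⟩, -⟩
        exact ⟨⟨h2, hx, hy⟩, h1.symm.trans h2, hx, hz⟩
    by_cases hab : a = b
    · rw [if_pos hab, sub_zero, sub_zero]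
      exact if_congr (hiff.trans ⟨fun hh => hh.2, fun hh => ⟨hab, hh⟩⟩) rfl rfl
    · rw [if_neg hab, if_neg (fun hh => hab (hiff.1 hh).1)]

/-- One coupling of one pair. -/
theorem copyW_pair_h7 [IsAlgClosure ℚ F] {ℓ : ℕ} (hℓ : ℓ.Prime) {v : ι × Fin (n + 1) → ℤ}
    (h : GoodH v) {nd : ι → ι → Fin n → F} (hN : Nodes (gpolQ v) nd)
    (T : Finset ι) (a₀ b₀ : Fin n) :
    ∃ ν : F → ZMod ℓ, IsVal (IntermediateField.adjoin ℚ (nodes ℚ F (gpolQ v))).toSubfield ν ∧
      CopyW ν (gpolQ v) nd (fun _ => 0) (fun _ _ => 0)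
        (fun T' a b => if T' = T ∧ T.card = 2 ∧ a₀ < b₀ ∧
          ((a = a₀ ∧ b = b₀) ∨ (a = b₀ ∧ b = a₀)) then 1 else 0) := by
  by_cases hT : T.card = 2 ∧ a₀ < b₀
  swap
  · refine ⟨fun _ => 0, ⟨fun _ _ _ _ _ _ => (add_zero 0).symm, rfl⟩, ⟨?_, ?_, ?_⟩⟩
    · intro i j hij
      rfl
    · intro i j hij a b hab
      exact (if_neg (fun hh => hT ⟨hh.2.1, hh.2.2.1⟩)).symm
    · intro i j l hij hjl hil a b
      by_cases hab : a = b
      · rw [if_pos hab]
        ring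
      · rw [if_neg hab]
  obtain ⟨hT, hab₀⟩ := hT
  obtain ⟨i, j, hij, hTe⟩ := Finset.card_eq_two.1 hT
  have hm : ∀ a : Fin n, aeval (nd i j a) (gpolQ v i) = aeval (nd i j a) (gpolQ v j) :=
    fun a => (hN.mem i j hij _).2 ⟨a, rfl⟩
  obtain ⟨ν, hν, hD⟩ := exists_val_D hℓ h hij (nd i j a₀) (nd i j b₀)
    (fun he => hab₀.ne (hN.inj i j hij he)) (hm a₀) (hm b₀)
  have hpT : ∀ x y : ι, x ≠ y → (({x, y} : Set ι) = {i, j} ↔ pr x y = T) := by
    intro x y hxy
    have e : pr i j = T := by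
      rw [hTe]
      ext t
      rw [mem_pr]
      simp
    rw [← e, pr_eq_pr, Set.pair_eq_pair_iff]
  have hkey : ∀ {x y : ι} {a : Fin n}, x ≠ y →
      (nd x y a ∈ ({nd i j a₀, nd i j b₀} : Set F) ↔ pr x y = T ∧ (a = a₀ ∨ a = b₀)) := by
    intro x y a hxy
    have h1 : ∀ c : Fin n, nd x y a = nd i j c ↔ pr x y = T ∧ a = c := by
      intro c
      rw [← hpT x y hxy]
      constructor
      · exact fun he => Nodes.ne h hN hxy hij he
      · rintro ⟨h1, rfl⟩
        rcases Set.pair_eq_pair_iff.1 h1 with ⟨h2, h3⟩ | ⟨h2, h3⟩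
        · rw [h2, h3]
        · rw [h2, h3, hN.symm]
    rw [Set.mem_insert_iff, Set.mem_singleton_iff, h1, h1]
    constructor
    · rintro (⟨hh, h2⟩ | ⟨hh, h2⟩)
      · exact ⟨hh, Or.inl h2⟩
      · exact ⟨hh, Or.inr h2⟩
    · rintro ⟨hh, h2 | h2⟩
      · exact Or.inl ⟨hh, h2⟩
      · exact Or.inr ⟨hh, h2⟩
  refine ⟨ν, hν, ?_, ?_, ?_⟩
  · intro x y hxy
    exact hD.lead x y hxy
  · intro x y hxy a b hab
    rw [hD.dif _ (hN.mem_nodes_h30 hxy a) _ (hN.mem_nodes_h30 hxy b) fun he => hab (hN.inj x y hxy he)]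
    refine if_congr ?_ rfl rfl
    rw [hkey hxy, hkey hxy]
    constructor
    · rintro ⟨⟨h1, h2⟩, -, h3⟩
      refine ⟨h1, hT, hab₀, ?_⟩
      rcases h2 with h2 | h2 <;> rcases h3 with h3 | h3
      · exact absurd (h2.trans h3.symm) hab
      · exact Or.inl ⟨h2, h3⟩
      · exact Or.inr ⟨h2, h3⟩
      · exact absurd (h2.trans h3.symm) hab
    · rintro ⟨h1, -, -, ⟨h2, h3⟩ | ⟨h2, h3⟩⟩
      · exact ⟨⟨h1, Or.inl h2⟩, h1, Or.inr h3⟩
      · exact ⟨⟨h1, Or.inr h2⟩, h1, Or.inl h3⟩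
  · intro x y z hxy hyz hxz a b
    have hne : nd x y a ≠ nd x z b := by
      intro he
      rcases Set.pair_eq_pair_iff.mp (Nodes.ne h hN hxy hxz he).1 with ⟨-, h2⟩ | ⟨h1, -⟩
      · exact hyz h2
      · exact hxz h1
    rw [hD.dif _ (hN.mem_nodes_h30 hxy a) _ (hN.mem_nodes_h30 hxz b) hne, if_neg]
    · by_cases hab : a = b
      · rw [if_pos hab]
        ring
      · rw [if_neg hab]
    · rw [hkey hxy, hkey hxz]
      rintro ⟨⟨h1, -⟩, h2, -⟩
      have h3 : pr x y = pr x z := h1.trans h2.symm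
      rcases pr_eq_pr.1 h3 with ⟨-, h4⟩ | ⟨h4, -⟩
      · exact hyz h4
      · exact hxz h4

/-- The symbols of the pairs. -/
theorem copyW_lead_h7 [IsAlgClosure ℚ F] {ℓ : ℕ} (hℓ : ℓ.Prime) {v : ι × Fin (n + 1) → ℤ}
    (h : GoodH v) (hn : 2 ≤ n) {nd : ι → ι → Fin n → F} (hN : Nodes (gpolQ v) nd)
    (β : Finset ι → ZMod ℓ) :
    ∃ ν : F → ZMod ℓ, IsVal (IntermediateField.adjoin ℚ (nodes ℚ F (gpolQ v))).toSubfield ν ∧
      CopyW ν (gpolQ v) nd β (fun _ _ => 0) (fun _ _ _ => 0) := by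
  obtain ⟨ν, hν, hV⟩ := copyV_all hℓ h hn hN (fun T => if T.card = 2 then β T else 0)
  have h2 : ∀ (inst : DecidableEq ι) {x y : ι}, x ≠ y →
      (if (@insert ι (Finset ι) (@Finset.instInsert ι inst) x {y}).card = 2 then
        β (@insert ι (Finset ι) (@Finset.instInsert ι inst) x {y}) else 0) = β (pr x y) := by
    intro inst x y hxy
    rw [if_pos (card_pair_h57 inst hxy), @pr_eq ι inst x y]
  refine ⟨ν, hν, ?_, ?_, ?_⟩
  · intro x y hxy
    rw [hV.lead x y hxy]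
    exact h2 _ hxy
  · intro x y hxy a b hab
    exact hV.par x y hxy a b hab
  · intro x y z hxy hyz hxz a b
    rw [hV.adj x y z hxy hyz hxz a b]
    by_cases hab : a = b
    · rw [if_pos hab, if_pos hab]
      have h3 : ∀ (inst : DecidableEq ι), (if (@insert ι (Finset ι) (@Finset.instInsert ι inst) x
          (@insert ι (Finset ι) (@Finset.instInsert ι inst) y {z})).card = 2 then
          β (@insert ι (Finset ι) (@Finset.instInsert ι inst) x
          (@insert ι (Finset ι) (@Finset.instInsert ι inst) y {z})) else 0) = 0 := by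
        intro inst
        apply if_neg
        rw [card_triple_h57 inst hxy hxz hyz]
        decide
      exact congrArg₂ (fun x y : ZMod ℓ => x - y)
        (congrArg₂ (fun x y : ZMod ℓ => x - y) (h3 _) (h2 _ hxy)) (h2 _ hxz)
    · rw [if_neg hab, if_neg hab]

/-- All symbols and couplings. Proof: let `ν₀` be that of `copyV_all` for `B T = if T.card = 2 then β T else 0`;
for `T = {i, j, l}` (`T.card = 3`, choose `i, j, l`) and `a : Fin n` let `ν_{T, a}` be that of `exists_val_B` for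
`nd i j a`, `nd j l a`, `nd i l a`; for `T = {i, j}` (`T.card = 2`) and `a < b` let `ν_{T, a, b}` be that of
`exists_val_D` for `nd i j a`, `nd i j b`. Take
`ν = ν₀ + ∑_T ∑_a c a T • ν_{T, a} + ∑_T ∑_{a < b} δ T a b • ν_{T, a, b}`. The values: at the leading coefficients
only `ν₀` contributes, `B (pr i j) = β (pr i j)`; at `nd i j a - nd i j b`: `ν₀` and the `ν_{T, a}` give `0`
(`Nodes.ne`), the last sum gives `δ (pr i j) a b` (symmetric, `hδ`); at `nd i j a - nd i l b`: `ν₀` gives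
`- β (pr i j) - β (pr i l)` if `a = b`, otherwise `0`, the second sum gives `c a (tr i j l)` if `a = b`, otherwise
`0`, the last sum gives `0`. See the proofs of `copyV_triple` and `copyV_pair` (`Gr/E05.lean`) and `copyV_all`
(`Gr/E06.lean`). `pr_eq`, `tr_eq` change `pr i j`, `tr i j l` to `{i, j}`, `{i, j, l}` for any instance of
`DecidableEq`. -/
theorem copyW_all [IsAlgClosure ℚ F] {ℓ : ℕ} (hℓ : ℓ.Prime) {v : ι × Fin (n + 1) → ℤ}
    (h : GoodH v) (hn : 2 ≤ n) {nd : ι → ι → Fin n → F} (hN : Nodes (gpolQ v) nd)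
    (β : Finset ι → ZMod ℓ) (c : Fin n → Finset ι → ZMod ℓ)
    (δ : Finset ι → Fin n → Fin n → ZMod ℓ) (hδ : ∀ T a b, δ T a b = δ T b a) :
    ∃ ν : F → ZMod ℓ, IsVal (IntermediateField.adjoin ℚ (nodes ℚ F (gpolQ v))).toSubfield ν ∧
      CopyW ν (gpolQ v) nd β c δ := by
  obtain ⟨ν₀, hν₀, hC₀⟩ := copyW_lead_h7 (F := F) hℓ h hn hN β
  choose ν₁ hν₁ hC₁ using fun t : Fin n × Finset ι =>
    copyW_triple_h7 (F := F) hℓ h (by omega) hN t.1 t.2
  choose ν₂ hν₂ hC₂ using fun t : Finset ι × Fin n × Fin n =>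
    copyW_pair_h7 (F := F) hℓ h hN t.1 t.2.1 t.2.2
  have hS₁ := copyW_sum_h7 Finset.univ (fun t : Fin n × Finset ι => c t.1 t.2) ν₁ _ _ _ hC₁
  have hS₂ := copyW_sum_h7 Finset.univ (fun t : Finset ι × Fin n × Fin n => δ t.1 t.2.1 t.2.2)
    ν₂ _ _ _ hC₂
  refine ⟨_, (hν₀.add_h64 (isVal_sum_h57 Finset.univ (fun t : Fin n × Finset ι => c t.1 t.2) ν₁
    hν₁)).add_h64 (isVal_sum_h57 Finset.univ
      (fun t : Finset ι × Fin n × Fin n => δ t.1 t.2.1 t.2.2) ν₂ hν₂),
    copyW_congr_h7 (copyW_add_h7 (copyW_add_h7 hC₀ hS₁) hS₂) ?_ ?_ ?_⟩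
  · intro T hT
    simp
  · intro a T hT
    simp only [mul_zero, Finset.sum_const_zero, zero_add, add_zero]
    rw [Finset.sum_eq_single (a, T)]
    · simp [hT]
    · rintro ⟨a', T'⟩ - hne
      rw [if_neg, mul_zero]
      rintro ⟨h1, h2, -⟩
      exact hne (Prod.ext h1.symm h2.symm)
    · exact fun hh => absurd (Finset.mem_univ _) hh
  · intro T hT a b hab
    simp only [mul_zero, Finset.sum_const_zero, zero_add]
    rcases lt_or_gt_of_ne hab with hlt | hlt
    · rw [Finset.sum_eq_single (T, a, b)]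
      · simp [hT, hlt]
      · rintro ⟨T', a', b'⟩ - hne
        rw [if_neg, mul_zero]
        rintro ⟨h1, -, h2, ⟨h3, h4⟩ | ⟨h3, h4⟩⟩
        · exact hne (Prod.ext h1.symm (Prod.ext h3.symm h4.symm))
        · simp only at h1 h2 h3 h4
          rw [← h3, ← h4] at h2
          exact absurd hlt h2.not_gt
      · exact fun hh => absurd (Finset.mem_univ _) hh
    · rw [Finset.sum_eq_single (T, b, a)]
      · simp [hT, hlt, hδ T b a]
      · rintro ⟨T', a', b'⟩ - hne
        rw [if_neg, mul_zero]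
        rintro ⟨h1, -, h2, ⟨h3, h4⟩ | ⟨h3, h4⟩⟩
        · simp only at h1 h2 h3 h4
          rw [← h3, ← h4] at h2
          exact absurd hlt h2.not_gt
        · exact hne (Prod.ext h1.symm (Prod.ext h4.symm h3.symm))
      · exact fun hh => absurd (Finset.mem_univ _) hh

end Pool.Agent.Lib.MP_89bcae_ag
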