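import Mathlib
import Pool.Agent.Lib.MP_89bcae_ag.Gt.W03
import Pool.Agent.Lib.MP_89bcae_ag.Gr.E08

/-!
# Prime fields with the values of a given homomorphism
-/

open Polynomial

open scoped Classical

namespace Pool.Agent.Lib.MP_89bcae_ag

open Superelliptic

variable {ι : Type} [Fintype ι] [LinearOrder ι] {n : ℕ}

/-- **Primes with the values of a homomorphism.** (As `exists_prime_graphs`, `Gr/E08.lean`.) -/
theorem exists_prime_val {v : ι × Fin (n + 1) → ℤ} (h : GoodH v) (hn : 2 ≤ n) {ℓ : ℕ}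
    (hℓ : ℓ.Prime) (hℓ2 : ℓ ≠ 2) {F : Type} [Field F] [Algebra ℚ F] [IsAlgClosure ℚ F]
    {nd : ι → ι → Fin n → F} (hN : Nodes (gpolQ v) nd) (ν₀ : F → ZMod ℓ)
    (hν₀ : IsVal (IntermediateField.adjoin ℚ (nodes ℚ F (gpolQ v))).toSubfield ν₀)
    (h0 : ∃ i j, i ≠ j ∧ ν₀ (algebraMap ℚ F (gpolQ v i - gpolQ v j).leadingCoeff) ≠ 0) (N : ℕ) :
    ∃ (q : ℕ) (_ : Fact q.Prime) (ζ : ZMod q) (V : Val14 (ZMod q) ℓ) (nd' : ι → ι → Fin n → ZMod q),
      N < q ∧ IsPrimitiveRoot ζ ℓ ∧ IsArrangement (gpol (fun x => (v x : ZMod q))) ∧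
      Nodes (F := ZMod q) (gpol (fun x => (v x : ZMod q))) nd' ∧
      (∀ i j, i ≠ j →
        V.ν (gpol (fun x => (v x : ZMod q)) i - gpol (fun x => (v x : ZMod q)) j).leadingCoeff =
          ν₀ (algebraMap ℚ F (gpolQ v i - gpolQ v j).leadingCoeff)) ∧
      ∀ i j i' j' a a', i ≠ j → i' ≠ j' → nd i j a ≠ nd i' j' a' →
        V.ν (nd' i j a - nd' i' j' a') = ν₀ (nd i j a - nd i' j' a') := by
  have : Fact ℓ.Prime := ⟨hℓ⟩
  have : NeZero ℓ := ⟨hℓ.ne_zero⟩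
  obtain ⟨E, ζ, U, hfin, hζ, hmem, hC1, hC2⟩ := exists_U_val (F := F) hℓ h (by omega) hN ν₀ hν₀
  have : FiniteDimensional ℚ E := hfin
  have : NumberField E := @NumberField.of_module_finite ℚ E _ _ _ E.algebra' hfin
  have : Algebra.IsAlgebraic ℚ F := IsAlgClosure.isAlgebraic
  have : IsAlgClosure E F := ⟨IsAlgClosure.isAlgClosed ℚ, Algebra.IsAlgebraic.tower_top (K := ℚ) E⟩
  -- the leading coefficients
  have hlead : ∀ i j : ι, i ≠ j → (gpolQ v i - gpolQ v j).leadingCoeff =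
      ((v (i, Fin.last n) - v (j, Fin.last n) : ℤ) : ℚ) := by
    intro i j hij
    have h1 := gdif_coeff (fun x => (v x : ℚ)) i j (Fin.last n)
    unfold gdif at h1
    rw [Fin.val_last] at h1
    have h2 : (gpolQ v i - gpolQ v j).coeff n =
        (v (i, Fin.last n) : ℚ) - (v (j, Fin.last n) : ℚ) := h1
    rw [leadingCoeff, hN.lead i j hij, h2]
    push_cast
    rfl
  have hvne : ∀ i j : ι, i ≠ j → v (i, Fin.last n) - v (j, Fin.last n) ≠ 0 := by
    intro i j hij h0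
    have h1 := hlead i j hij
    rw [h0, Int.cast_zero, leadingCoeff_eq_zero] at h1
    have h2 := hN.lead i j hij
    rw [h1, natDegree_zero] at h2
    omega
  -- the elements of `E`
  let nE : ι → ι → Fin n → E := fun i j a => if hij : i ≠ j then ⟨nd i j a, hmem i j hij a⟩ else 0
  have hnE : ∀ i j (hij : i ≠ j) a, nE i j a = ⟨nd i j a, hmem i j hij a⟩ := by
    intro i j hij a
    exact dif_pos hij
  have hnE' : ∀ i j (_ : i ≠ j) a, algebraMap E F (nE i j a) = nd i j a := by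
    intro i j hij a
    rw [hnE i j hij a]
    rfl
  let T : Finset E :=
    (Finset.univ.image fun t : ι × ι × Fin n => nE t.1 t.2.1 t.2.2) ∪
    (Finset.univ.image fun t : (ι × ι × Fin n) × (ι × ι × Fin n) =>
      nE t.1.1 t.1.2.1 t.1.2.2 - nE t.2.1 t.2.2.1 t.2.2.2) ∪
    (Finset.univ.image fun t : ι × ι => ((v (t.1, Fin.last n) - v (t.2, Fin.last n) : ℤ) : E))
  have hT1 : ∀ i j a, nE i j a ∈ T := fun i j a =>
    Finset.mem_union_left _ (Finset.mem_union_left _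
      (Finset.mem_image.2 ⟨(i, j, a), Finset.mem_univ _, rfl⟩))
  have hT2 : ∀ i j a i' j' a', nE i j a - nE i' j' a' ∈ T := fun i j a i' j' a' =>
    Finset.mem_union_left _ (Finset.mem_union_right _
      (Finset.mem_image.2 ⟨((i, j, a), (i', j', a')), Finset.mem_univ _, rfl⟩))
  have hT3 : ∀ i j, ((v (i, Fin.last n) - v (j, Fin.last n) : ℤ) : E) ∈ T := fun i j =>
    Finset.mem_union_right _ (Finset.mem_image.2 ⟨(i, j), Finset.mem_univ _, rfl⟩)
  have hdne : ∀ i j i' j' (_ : i ≠ j) (_ : i' ≠ j') (a a' : Fin n),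
      (({i, j} : Set ι) ≠ {i', j'} ∨ a ≠ a') → nE i j a - nE i' j' a' ≠ 0 := by
    intro i j i' j' hij hij' a a' hor h0
    have h1 : nE i j a = nE i' j' a' := sub_eq_zero.1 h0
    rw [hnE i j hij, hnE i' j' hij'] at h1
    have h2 : nd i j a = nd i' j' a' := congrArg Subtype.val h1
    obtain ⟨h3, h4⟩ := Nodes.ne h hN hij hij' h2
    rcases hor with h5 | h5
    · exact h5 h3
    · exact h5 h4
  -- the Kummer symbols
  have hk3 : ∀ i j, i ≠ j → Sup.kap ℓ (algebraMap E F ζ) U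
      (algebraMap E F ((v (i, Fin.last n) - v (j, Fin.last n) : ℤ) : E)) =
        ν₀ (algebraMap ℚ F (gpolQ v i - gpolQ v j).leadingCoeff) := by
    intro i j hij
    have h1 := hC1 i j hij
    have h2 : algebraMap E F ((v (i, Fin.last n) - v (j, Fin.last n) : ℤ) : E) =
        algebraMap ℚ F (gpolQ v i - gpolQ v j).leadingCoeff := by
      rw [hlead i j hij, map_intCast, map_intCast]
    rw [h2, h1]
  have hk2 : ∀ i j i' j' (_ : i ≠ j) (_ : i' ≠ j') (a a' : Fin n),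
      algebraMap E F (nE i j a - nE i' j' a') = nd i j a - nd i' j' a' := by
    intro i j i' j' hij hij' a a'
    rw [map_sub, hnE' i j hij, hnE' i' j' hij']
  have hfirst : ∃ z ∈ T, z ≠ 0 ∧ Sup.kap ℓ (algebraMap E F ζ) U
      (algebraMap E F z) ≠ 0 := by
    obtain ⟨i, j, hij, hb⟩ := h0
    refine ⟨_, hT3 i j, Int.cast_ne_zero.2 (hvne i j hij), ?_⟩
    rw [hk3 i j hij]
    exact hb
  obtain ⟨q, hq, A, Φ, c, hζA, hNq, hdvd, hc, hprim, hT⟩ :=
    Re.exists_reduction hℓ E F hζ U T hfirst N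
  have hcop : Nat.Coprime c.val ℓ := by
    refine ((Nat.Prime.coprime_iff_not_dvd hℓ).2 ?_).symm
    intro hd
    apply hc
    have h5 : c.val = 0 := Nat.eq_zero_of_dvd_of_lt hd (ZMod.val_lt c)
    exact (ZMod.val_eq_zero c).1 h5
  have hζ' : IsPrimitiveRoot ((Φ ⟨ζ, hζA⟩) ^ c.val) ℓ := hprim.pow_of_coprime c.val hcop
  obtain ⟨V, hV⟩ := Lr.exists_val_zmod hℓ hℓ2 hdvd hζ'
  have hval : ∀ z ∈ T, ∀ hz : z ∈ A, z ≠ 0 → Φ ⟨z, hz⟩ ≠ 0 ∧ V.ν (Φ ⟨z, hz⟩) =
      Sup.kap ℓ (algebraMap E F ζ) U (algebraMap E F z) := by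
    intro z hzT hz hz0
    obtain ⟨hz', hrest⟩ := hT z hzT
    obtain ⟨h0, hpow⟩ := hrest hz0
    refine ⟨h0, hV _ _ h0 ?_⟩
    rw [hpow, ZMod.val_mul, ← pow_mul]
    exact (pow_eq_pow_mod _ hprim.pow_eq_one).symm
  -- the subring of `F`
  have hinj : Function.Injective (algebraMap E F) :=
    (algebraMap E F).injective
  let e := A.equivMapOfInjective (algebraMap E F) hinj
  let A' : Subring F := A.map (algebraMap E F)
  let Φ' : A' →+* ZMod q := Φ.comp (e.symm : A' →+* A)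
  have hmA : ∀ i j a, nE i j a ∈ A := fun i j a => (hT _ (hT1 i j a)).1
  have hA' : ∀ i j, i ≠ j → ∀ a, nd i j a ∈ A' := by
    intro i j hij a
    exact Subring.mem_map.2 ⟨nE i j a, hmA i j a, hnE' i j hij a⟩
  have hΦ' : ∀ i j (hij : i ≠ j) a, Φ' ⟨nd i j a, hA' i j hij a⟩ = Φ ⟨nE i j a, hmA i j a⟩ := by
    intro i j hij a
    have h1 : e ⟨nE i j a, hmA i j a⟩ = ⟨nd i j a, hA' i j hij a⟩ :=
      Subtype.ext (hnE' i j hij a)
    show Φ (e.symm ⟨nd i j a, hA' i j hij a⟩) = _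
    rw [← h1, RingEquiv.symm_apply_apply]
  have hsub : ∀ i j a i' j' a', ∃ hz : nE i j a - nE i' j' a' ∈ A,
      Φ ⟨nE i j a - nE i' j' a', hz⟩ = Φ ⟨nE i j a, hmA i j a⟩ - Φ ⟨nE i' j' a', hmA i' j' a'⟩ := by
    intro i j a i' j' a'
    refine ⟨A.sub_mem (hmA i j a) (hmA i' j' a'), ?_⟩
    rw [← map_sub]
    rfl
  have hlc' : ∀ i j, ∃ hz : ((v (i, Fin.last n) - v (j, Fin.last n) : ℤ) : E) ∈ A,
      Φ ⟨((v (i, Fin.last n) - v (j, Fin.last n) : ℤ) : E), hz⟩ =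
        ((v (i, Fin.last n) - v (j, Fin.last n) : ℤ) : ZMod q) := by
    intro i j
    obtain ⟨hz, -⟩ := hT _ (hT3 i j)
    refine ⟨hz, ?_⟩
    have h5 : (⟨((v (i, Fin.last n) - v (j, Fin.last n) : ℤ) : E), hz⟩ : A) =
        ((v (i, Fin.last n) - v (j, Fin.last n) : ℤ) : A) := Subtype.ext (by push_cast; rfl)
    rw [h5, map_intCast]
  have hlc : ∀ i j, i ≠ j →
      ((v (i, Fin.last n) - v (j, Fin.last n) : ℤ) : ZMod q) ≠ 0 ∧
      V.ν ((v (i, Fin.last n) - v (j, Fin.last n) : ℤ) : ZMod q) =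
        ν₀ (algebraMap ℚ F (gpolQ v i - gpolQ v j).leadingCoeff) := by
    intro i j hij
    obtain ⟨hz, he⟩ := hlc' i j
    obtain ⟨h0, h1⟩ := hval _ (hT3 i j) hz (Int.cast_ne_zero.2 (hvne i j hij))
    rw [he] at h0 h1
    exact ⟨h0, h1.trans (hk3 i j hij)⟩
  have hdif : ∀ i j i' j' (hij : i ≠ j) (hij' : i' ≠ j') (a a' : Fin n),
      (({i, j} : Set ι) ≠ {i', j'} ∨ a ≠ a') →
        Φ' ⟨nd i j a, hA' i j hij a⟩ - Φ' ⟨nd i' j' a', hA' i' j' hij' a'⟩ ≠ 0 ∧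
        V.ν (Φ' ⟨nd i j a, hA' i j hij a⟩ - Φ' ⟨nd i' j' a', hA' i' j' hij' a'⟩) =
          Sup.kap ℓ (algebraMap E F ζ) U (nd i j a - nd i' j' a') := by
    intro i j i' j' hij hij' a a' hor
    obtain ⟨hz, he⟩ := hsub i j a i' j' a'
    obtain ⟨h0, h1⟩ := hval _ (hT2 i j a i' j' a') hz (hdne i j i' j' hij hij' a a' hor)
    rw [he] at h0 h1
    rw [hΦ' i j hij a, hΦ' i' j' hij' a']
    refine ⟨h0, h1.trans ?_⟩
    rw [hk2 i j i' j' hij hij' a a']
  have hd : ∀ i j i' j' (hij : i ≠ j) (hij' : i' ≠ j') (a a' : Fin n),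
      (({i, j} : Set ι) ≠ {i', j'} ∨ a ≠ a') →
        Φ' ⟨nd i j a, hA' i j hij a⟩ ≠ Φ' ⟨nd i' j' a', hA' i' j' hij' a'⟩ := by
    intro i j i' j' hij hij' a a' hor
    exact sub_ne_zero.1 (hdif i j i' j' hij hij' a a' hor).1
  obtain ⟨hArr, hNod⟩ := nodes_reduction (by omega : 1 ≤ n) hN A' Φ' hA'
    (fun i j hij => (hlc i j hij).1) hd
  refine ⟨q, hq, (Φ ⟨ζ, hζA⟩) ^ c.val, V, _, hNq, hζ', hArr, hNod, ?_, ?_⟩
  · intro i j hij
    have h1 : (gpol (fun x => (v x : ZMod q)) i - gpol (fun x => (v x : ZMod q)) j).leadingCoeff =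
        ((v (i, Fin.last n) - v (j, Fin.last n) : ℤ) : ZMod q) := by
      have h2 := gdif_coeff (fun x => (v x : ZMod q)) i j (Fin.last n)
      unfold gdif at h2
      rw [Fin.val_last] at h2
      rw [leadingCoeff, hNod.lead i j hij, h2]
      push_cast
      rfl
    rw [h1]
    exact (hlc i j hij).2
  · intro i j i' j' a a' hij hij' hne
    rw [dif_neg hij, dif_neg hij']
    refine (hdif i j i' j' hij hij' a a' ?_).2.trans (hC2 i j i' j' a a' hij hij' hne)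
    by_contra hor
    push Not at hor
    obtain ⟨h3, h4⟩ := hor
    apply hne
    rw [h4]
    rcases Set.pair_eq_pair_iff.mp h3 with ⟨rfl, rfl⟩ | ⟨rfl, rfl⟩
    · rfl
    · exact hN.symm _ _ _

end Pool.Agent.Lib.MP_89bcae_ag
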