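import Mathlib
import Pool.Agent.Lib.MP_89bcae_ag.Gt.P07
import Pool.Agent.Lib.MP_89bcae_ag.Gt.W01
import Pool.Agent.Lib.MP_89bcae_ag.Gt.W04
import Pool.Agent.Lib.MP_89bcae_ag.Gt.W05
import Pool.Agent.Lib.MP_89bcae_ag.Gr.E10

/-!
# Three graphs: finite fields without Tate classes
-/

open Polynomial

open scoped Classical

namespace Pool.Agent.Lib.MP_89bcae_ag

open Superelliptic

variable {ι : Type} {n : ℕ}

theorem ne_zero_of_coprime_h8 {ℓ : ℕ} (hℓ : ℓ.Prime) {m : ℕ} (hm : m.Coprime ℓ) :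
    (m : ZMod ℓ) ≠ 0 := by
  intro h0
  rw [ZMod.natCast_eq_zero_iff] at h0
  exact hℓ.one_lt.ne' (Nat.eq_one_of_dvd_coprimes hm h0 dvd_rfl)

/-- **Finite fields without Tate classes, three graphs.** -/
theorem exists_prime_hasNoTateClasses_graph3 [Fintype ι] [LinearOrder ι] {ℓ : ℕ} (hℓ : ℓ.Prime)
    (hℓ2 : ℓ ≠ 2) {v : ι × Fin (n + 1) → ℤ} (hv : GoodH v) (hn : 2 ≤ n) {I : Finset ι}
    (hI : I.card = 3) (W : I → ℕ) (hW : ∀ i, (W i).Coprime ℓ) (hs : (∑ i, W i).Coprime ℓ) (N : ℕ) :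
    ∃ (q : ℕ) (_ : Fact q.Prime), N < q ∧ Graph.HasNoTateClasses ℓ (ZMod q) v I W := by
  haveI : Fact ℓ.Prime := ⟨hℓ⟩
  obtain ⟨F, _, _, _⟩ : ∃ (F : Type) (_ : Field F) (_ : Algebra ℚ F), IsAlgClosure ℚ F := by
    let _ : Algebra ℚ (AlgebraicClosure ℚ) := AlgebraicClosure.instAlgebra ℚ
    exact ⟨AlgebraicClosure ℚ, inferInstance, AlgebraicClosure.instAlgebra ℚ, inferInstance⟩
  have hvI := hv.restrict I
  obtain ⟨β, c, δ, hδ, hG, i₀, j₀, hij₀, hβ⟩ := Tri.exists_goodW (ι := I) hℓ2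
    (by rw [Fintype.card_coe]; exact hI) (w := fun i => (W i : ZMod ℓ))
    (fun i => ne_zero_of_coprime_h8 hℓ (hW i))
    (by
      have h := ne_zero_of_coprime_h8 hℓ hs
      rw [Nat.cast_sum] at h
      exact h) hn
  obtain ⟨nd, hN⟩ := exists_nodes (F := F) hvI
  obtain ⟨ν, hν, hC⟩ := copyW_all hℓ hvI hn hN β c δ hδ
  obtain ⟨q, hq, ζ, V, nd', hNq, hζ, hα, hN', hV1, hV2⟩ :=
    exists_prime_val hvI hn hℓ hℓ2 hN ν hν ⟨i₀, j₀, hij₀, by rw [hC.lead i₀ j₀ hij₀]; exact hβ⟩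
      (max N ℓ)
  have hℓq : ℓ < q := (le_max_right N ℓ).trans_lt hNq
  have hℓ0 : ((ℓ : ℕ) : ZMod q) ≠ 0 := by
    intro h0
    rw [ZMod.natCast_eq_zero_iff] at h0
    exact absurd (Nat.le_of_dvd hℓ.pos h0) (not_le.mpr hℓq)
  have hne : ∀ i j l : I, i ≠ j → j ≠ l → i ≠ l → ∀ a b, nd i j a ≠ nd i l b := by
    intro i j l hij hjl hil a b he
    rcases Set.pair_eq_pair_iff.mp (Nodes.ne hvI hN hij hil he).1 with ⟨-, h2⟩ | ⟨h1, -⟩
    · exact hjl h2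
    · exact hil h1
  have hCV : CopyW V.ν (gpol (fun x : I × Fin (n + 1) => (v (x.1, x.2) : ZMod q))) nd' β c δ := by
    refine ⟨fun i j hij => ?_, fun i j hij a b hab => ?_, fun i j l hij hjl hil a b => ?_⟩
    · rw [Algebra.algebraMap_self, RingHom.id_apply]
      exact (hV1 i j hij).trans (hC.lead i j hij)
    · exact (hV2 i j i j a b hij hij fun he => hab (hN.inj i j hij he)).trans
        (hC.par i j hij a b hab)
    · exact (hV2 i j i l a b hij hil (hne i j l hij hjl hil a b)).trans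
        (hC.adj i j l hij hjl hil a b)
  refine ⟨q, hq, (le_max_left N ℓ).trans_lt hNq, hα, ?_⟩
  intro F' L Ω _ _ _ _ _ _ _ _ _ k' hk'
  haveI := hk'
  exact tateClassesTorsionN8 (Wt.Lns.arrangementW F' L Ω hℓ hℓ0 hζ W hW hs _ hα
    (indepW_of_copyW_base hℓ V _ hα W hW nd' hN' β c δ hCV hG F') k')

end Pool.Agent.Lib.MP_89bcae_ag
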