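import Mathlib
import Pool.Agent.Lib.MP_89bcae_ag.Gt.W06
import Pool.Agent.Lib.MP_89bcae_ag.Gph.Ind

/-!
# Three graphs: the criterion over the cyclotomic field
-/

open Polynomial

open scoped Classical

namespace Pool.Agent.Lib.MP_89bcae_ag

open Superelliptic

variable {ι : Type} [Fintype ι] [LinearOrder ι] {n : ℕ}

theorem graphIndepW3 {ℓ : ℕ} (hℓ : ℓ.Prime) (hℓ2 : ℓ ≠ 2) {v : ι × Fin (n + 1) → ℤ}
    (hv : GoodH v) (hn : 2 ≤ n) (hι : Fintype.card ι = 3)
    (W : ι → ℕ) (hW : ∀ i, (W i).Coprime ℓ) (hs : (∑ i, W i).Coprime ℓ)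
    (K F : Type) [Field K] [Algebra ℚ K] [IsCyclotomicExtension {ℓ} ℚ K] [Field F] [Algebra ℚ F]
    [IsAlgClosure ℚ F] [Algebra K F] [IsScalarTower ℚ K F] :
    IsArrangement (fun i => (gpolQ v i).map (algebraMap ℚ K)) ∧
      ArrangementIndependentW ℓ K F W (fun i => (gpolQ v i).map (algebraMap ℚ K)) := by
  haveI : Fact ℓ.Prime := ⟨hℓ⟩
  have : IsAlgClosed F := IsAlgClosure.isAlgClosed ℚ
  have hFA : Algebra.IsAlgebraic ℚ F := IsAlgClosure.isAlgebraic
  have hn0 : n ≠ 0 := by omega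
  have harr := hv.good.isArrangement hn0 K
  refine ⟨harr, ?_⟩
  have hnodes : nodes K F (fun i => (gpolQ v i).map (algebraMap ℚ K)) = nodes ℚ F (gpolQ v) := by
    unfold nodes
    simp only [aeval_map_algebraMap]
  have hfin : (nodes ℚ F (gpolQ v)).Finite := by
    apply nodes_gpolQ_finite
    intro a b hab hEq
    have h1 := hv.good.natDegree hab
    rw [hEq, sub_self, natDegree_zero] at h1
    exact hn0 h1.symm
  obtain ⟨β, c, δ, hδ, hG, -⟩ := Tri.exists_goodW (ι := ι) hℓ2 hι (w := fun i => (W i : ZMod ℓ))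
    (fun i => ne_zero_of_coprime_h8 hℓ (hW i))
    (by
      have h := ne_zero_of_coprime_h8 hℓ hs
      rw [Nat.cast_sum] at h
      exact h) hn
  obtain ⟨nd, hN⟩ := exists_nodes (F := F) hv
  obtain ⟨ν₀, hν₀, hC⟩ := copyW_all hℓ hv hn hN β c δ hδ
  obtain ⟨ν, hν, hνe⟩ := exists_extend_val hℓ K F (nodes ℚ F (gpolQ v)) hfin
    (fun s _ => (hFA.isAlgebraic s).isIntegral) ν₀ hν₀
  have hmem : ∀ i j, i ≠ j → ∀ a, nd i j a ∈ IntermediateField.adjoin ℚ (nodes ℚ F (gpolQ v)) :=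
    fun i j hij a => IntermediateField.subset_adjoin ℚ _ ⟨i, j, hij, (hN.mem i j hij _).2 ⟨a, rfl⟩⟩
  have hmap : ∀ i j, (gpolQ v i).map (algebraMap ℚ K) - (gpolQ v j).map (algebraMap ℚ K) =
      (gpolQ v i - gpolQ v j).map (algebraMap ℚ K) := fun i j => (Polynomial.map_sub _).symm
  have hN' : Nodes (F := F) (fun i => (gpolQ v i).map (algebraMap ℚ K)) nd := by
    refine ⟨hN.symm, hN.inj, fun i j hij s => ?_, fun i j hij => ?_⟩
    · rw [aeval_map_algebraMap, aeval_map_algebraMap]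
      exact hN.mem i j hij s
    · show ((gpolQ v i).map (algebraMap ℚ K) - (gpolQ v j).map (algebraMap ℚ K)).natDegree = n
      rw [hmap, natDegree_map]
      exact hN.lead i j hij
  have hC' : CopyW ν (fun i => (gpolQ v i).map (algebraMap ℚ K)) nd β c δ := by
    refine ⟨fun i j hij => ?_, fun i j hij a b hab => ?_, fun i j l hij hjl hil a b => ?_⟩
    · show ν (algebraMap K F
        ((gpolQ v i).map (algebraMap ℚ K) - (gpolQ v j).map (algebraMap ℚ K)).leadingCoeff) = _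
      rw [hmap, leadingCoeff_map, ← IsScalarTower.algebraMap_apply ℚ K F,
        hνe _ ((IntermediateField.adjoin ℚ (nodes ℚ F (gpolQ v))).algebraMap_mem _)]
      exact hC.lead i j hij
    · rw [hνe _ (sub_mem (hmem i j hij a) (hmem i j hij b))]
      exact hC.par i j hij a b hab
    · rw [hνe _ (sub_mem (hmem i j hij a) (hmem i l hil b))]
      exact hC.adj i j l hij hjl hil a b
  refine indepW_of_copyW hℓ _ harr W hW ν ?_ nd hN' β c δ hC' hG
  rw [hnodes]
  exact hν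

end Pool.Agent.Lib.MP_89bcae_ag
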